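import Pool.Agent.Lib.MP_dd84fd_nt.KX.Defs

/-!
# MP_e3f158_nt, Theorem T with exponent `1/6`: the sieve weights

Window `(X^τ, X^b]`, `b = bI th e = th - 3 e`, level `X^ℓ`, `ℓ = lK th τ = (1+th)/2 - 2 τ`, `th` slightly
above `1/6`. `x = log X`, `l = log log X`, `w = ℓ x`, `v j` = logarithm of the left end point of box `j`.

The minorant `Σ_{S ⊆ T} lamY S`: `1`; `{p}`: `-1` for `v p ≤ x/2`; `{p,q}` with `s = v p + v q`: `1` for
`s < 2x/5 - 3l`, `-1` for `2x/5 - 3l ≤ s ≤ x/2`, `2` for `x/2 < s ≤ w`. It is `1` on the types with one box,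
`≤ 0` on the others.
-/

set_option autoImplicit false

namespace Pool.MP_e3f158_nt.TY

open Finset Pool.MP_dd84fd_nt.HX Pool.MP_dd84fd_nt.IY Pool.MP_dd84fd_nt.KX

/-- admissible parameters -/
def AdmY (th e τ : ℝ) : Prop := 1 / 6 < th ∧ th ≤ 1 / 6 + 1 / 5000 ∧ 0 < e ∧ 1000 * e ≤ τ ∧
  16 * τ ≤ th - 1 / 6

/-- the weights -/
noncomputable def lamY (v : ℕ → ℝ) (x w l : ℝ) (S : Finset ℕ) : ℝ :=
  if S.card = 0 then 1 else if S.card = 1 then (if sg v S ≤ x / 2 then -1 else 0)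
  else if S.card = 2 then (if sg v S < 2 * x / 5 - 3 * l then 1 else if sg v S ≤ x / 2 then -1
    else if sg v S ≤ w then 2 else 0) else 0

/-- the type function -/
noncomputable def amY (α β ℓ κ : ℝ) (X : ℕ) : Finset ℕ → ℝ :=
  Wl α β κ X (lamY (vlog κ (zt X)) (Real.log X) (ℓ * Real.log X) (Real.log (Real.log X)))

/-- hypotheses on the parameters -/
structure ParY (κ x a b w l : ℝ) : Prop where
  hl : 1 ≤ l
  hκ : 11 * κ ≤ 1
  ha : 0 < a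
  h6b : x + 60 * l + 60 ≤ 6 * b
  h5b : 5 * b + 60 * l + 60 ≤ x
  hw : 2 * w + 12 * l + 2 ≤ x + b
  hxw : 7 * x / 12 + 30 * l + 30 ≤ w
  hwx : w + 30 * l + 30 ≤ 3 * x / 5

/-- hypotheses on a type -/
structure TyY (v : ℕ → ℝ) (κ x a b w l : ℝ) (T : Finset ℕ) : Prop where
  par : ParY κ x a b w l
  lo : x - 6 * l ≤ sg v T
  up : sg v T ≤ x
  ha : ∀ j ∈ T, a < v j
  hg : ¬ gdT v κ a b T

/-- loss of a pair of small boxes with sum `s` and of the complementary pair, four boxes -/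
noncomputable def hY (x l s : ℝ) : ℝ :=
  if s < 2 * x / 5 - 3 * l then 0 else if 5 * x / 12 < s ∧ s < x / 2 - 6 * l then 0
  else if x / 2 < s ∧ s < 7 * x / 12 then 0 else if 3 * x / 5 + 3 * l < s then 0
  else if |s - x / 2| ≤ 6 * l then 3 else 2

/-- the values of the minorant -/
def ValY : Prop := ∀ (v : ℕ → ℝ) (κ x a b w l : ℝ) (T : Finset ℕ), TyY v κ x a b w l T →
  ∀ A : ℝ, A = ∑ S ∈ T.powerset, lamY v x w l S →
  (1 ≤ T.card ∧ T.card ≤ 5 ∧ ∀ j ∈ T, b - 1 < v j) ∧ (T.card = 1 → A = 1) ∧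
  (2 ≤ T.card → A ≤ 0) ∧
  (∀ p q : ℕ, p ≠ q → T = {p, q} → v p ≤ v q → -1 ≤ A ∧ (v p < x / 2 - 6 * l → A = 0)) ∧
  (∀ p q r : ℕ, p ≠ q → p ≠ r → q ≠ r → T = {p, q, r} → v p ≤ v r → v q ≤ v r → -3 ≤ A ∧
    (v p + v q < 2 * x / 5 - 3 * l → A = 0) ∧ (x / 2 < v p + v q → v p + v q ≤ w → A = 0) ∧
    (v p + v q < x / 2 - 6 * l → -2 ≤ A) ∧ (x / 2 < v p + v q → -2 ≤ A)) ∧
  (∀ p q r s : ℕ, p ≠ q → p ≠ r → p ≠ s → q ≠ r → q ≠ s → r ≠ s → T = {p, q, r, s} →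
    v p ≤ v s → v q ≤ v s → v r ≤ v s →
    -(hY x l (v p + v q) + hY x l (v p + v r) + hY x l (v q + v r)) ≤ A) ∧
  (T.card = 5 → -14 ≤ A)

end Pool.MP_e3f158_nt.TY
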