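import Pool.Agent.Lib.MP_e3f158_nt.TY.Defs
import Pool.Agent.Lib.MP_dd84fd_nt.LX.SvFam

/-!
# MP_e3f158_nt, Theorem T with exponent `1/6`: the family

`tyY`: the types of the numbers in `(X5 / 2, X]`; `bdY` (bounds), `decY` (decomposition).
-/

set_option autoImplicit false

namespace Pool.MP_e3f158_nt.TY

open Finset Pool.MP_dd84fd_nt.HX Pool.MP_dd84fd_nt.IY Pool.MP_dd84fd_nt.KX Pool.MP_dd84fd_nt.LX
open Pool.MP_dd84fd_nt

private theorem l_big (c : ℝ) (hc : 0 < c) : ∃ X0 : ℕ, ∀ X : ℕ, X0 ≤ X →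
    1 ≤ X ∧ 4 ≤ Real.log X ∧ 1 ≤ Real.log (Real.log X) ∧ 2 ≤ zt X ∧ (X : ℝ) < (zt X : ℝ) ^ 11 ∧
      30 * Real.log (Real.log X) + 30 < c * Real.log X ∧ (X : ℝ) ^ (1 / 10 : ℝ) ≤ zt X := by
  obtain ⟨X1, hX1⟩ := b_par (1 / 8) (3 / 8) (by norm_num) (by norm_num) (by norm_num) 0
  have ht : Filter.Tendsto (fun X : ℕ => Real.log (X : ℝ)) Filter.atTop Filter.atTop :=
    Real.tendsto_log_atTop.comp tendsto_natCast_atTop_atTop
  have h1 := (Real.isLittleO_log_id_atTop.bound (show (0 : ℝ) < c / 100 by positivity))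
  have h2 : ∀ᶠ X : ℕ in Filter.atTop, ‖Real.log (Real.log (X : ℝ))‖ ≤
      c / 100 * ‖id (Real.log (X : ℝ))‖ := ht.eventually h1
  have h3 : ∀ᶠ X : ℕ in Filter.atTop, 100 / c ≤ Real.log (X : ℝ) := ht.eventually_ge_atTop _
  obtain ⟨X2, hX2⟩ := Filter.eventually_atTop.1 (h2.and h3)
  refine ⟨max X1 X2, fun X hX => ?_⟩
  obtain ⟨g1, g2, g3, g4, g5, _, g7, _⟩ := hX1 X (le_trans (le_max_left _ _) hX)
  obtain ⟨g8, g9⟩ := hX2 X (le_trans (le_max_right _ _) hX)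
  have g2' : 4 ≤ Real.log (X : ℝ) := by
    have := g2
    push_cast at this
    linarith
  refine ⟨g1, g2', g3, g4, g7, ?_, g5⟩
  rw [Real.norm_eq_abs, Real.norm_eq_abs, id, abs_of_nonneg (by linarith : (0:ℝ) ≤ Real.log X)] at g8
  have g10 := (le_abs_self _).trans g8
  have g11 : 100 ≤ c * Real.log X := by
    rw [div_le_iff₀ hc] at g9
    linarith
  linarith

theorem AdmY.pos {th e τ : ℝ} (h : AdmY th e τ) : 0 < τ := by
  obtain ⟨h1, h2, h3, h4, h5⟩ := h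
  linarith

/-- the inequalities between the parameters -/
theorem par_y {th e τ κ x l : ℝ} (hA : AdmY th e τ) (hl : 1 ≤ l) (hκ : 11 * κ ≤ 1)
    (hx : 30 * l + 30 < τ * x) :
    ParY κ x (τ * x) (bI th e * x) (lK th τ * x) l ∧ τ * x < x / 10 - l := by
  obtain ⟨h1, h2, h3, h4, h5⟩ := hA
  have ht0 : 0 < τ := by linarith
  have hx0 : 0 < x := by
    by_contra hc
    push Not at hc
    have : τ * x ≤ 0 := mul_nonpos_of_nonneg_of_nonpos ht0.le hc
    linarith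
  have m1 : 0 ≤ (6 * th - 1 - 96 * τ) * x := mul_nonneg (by linarith) hx0.le
  have m2 : 0 ≤ (τ - 1000 * e) * x := mul_nonneg (by linarith) hx0.le
  have m3 : 0 ≤ (1 / 6 + 1 / 5000 - th) * x := mul_nonneg (by linarith) hx0.le
  have m4 : 0 < e * x := mul_pos h3 hx0
  have m5 : 0 ≤ (1 / 80000 - τ) * x := mul_nonneg (by linarith) hx0.le
  unfold bI lK
  refine ⟨⟨hl, hκ, by positivity, ?_, ?_, ?_, ?_, ?_⟩, ?_⟩
  · nlinarith
  · nlinarith
  · nlinarith
  · nlinarith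
  · nlinarith
  · nlinarith

/-- the types of the numbers in `(X5 X / 2, X]` -/
theorem ty_y {th e τ : ℝ} (hA : AdmY th e τ) (B' : ℕ) (hB : 1 ≤ B') : ∃ X0 : ℕ, ∀ X : ℕ, X0 ≤ X →
    ParY (kp B' X) (Real.log X) (τ * Real.log X) (bI th e * Real.log X) (lK th τ * Real.log X)
      (Real.log (Real.log X)) ∧
    ∀ T : Finset ℕ, X5 X / 2 ≤ US (kp B' X) (zt X) T → US (kp B' X) (zt X) T ≤ X →
    T.card ≤ 10 ∧
    (¬ gdT (vlog (kp B' X) (zt X)) (kp B' X) (τ * Real.log X) (bI th e * Real.log X) T →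
      TyY (vlog (kp B' X) (zt X)) (kp B' X) (Real.log X) (τ * Real.log X)
        (bI th e * Real.log X) (lK th τ * Real.log X) (Real.log (Real.log X)) T) ∧
    (T.card = 1 →
      ¬ gdT (vlog (kp B' X) (zt X)) (kp B' X) (τ * Real.log X) (bI th e * Real.log X) T) := by
  obtain ⟨X1, hX1⟩ := l_big τ hA.pos
  obtain ⟨X3, hX3⟩ := kp_par B' hB
  refine ⟨max X1 X3, fun X hX => ?_⟩
  simp only [max_le_iff] at hX
  obtain ⟨g1, g2, g3, g4, g5, g6, gz⟩ := hX1 X hX.1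
  obtain ⟨k1, k2, k3, _⟩ := hX3 X hX.2
  obtain ⟨p1, p3⟩ := par_y (κ := kp B' X) hA g3 (by linarith) g6
  refine ⟨p1, fun T hT1 hT2 => ?_⟩
  set κ := kp B' X with hκ
  set x := Real.log (X : ℝ) with hx
  set l := Real.log x with hl
  have hz1 : 1 ≤ zt X := by omega
  have hzr : (1 : ℝ) ≤ zt X := by exact_mod_cast hz1
  have hzj : ∀ j, x / 10 - l ≤ vlog κ (zt X) j := by
    intro j
    rw [vlog_eq κ _ j hz1]
    have h3 : Real.log ((X : ℝ) ^ (1 / 10 : ℝ)) ≤ Real.log (zt X) :=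
      Real.log_le_log (Real.rpow_pos_of_pos (by exact_mod_cast g1) _) gz
    rw [Real.log_rpow (by exact_mod_cast g1)] at h3
    have h4 : 0 ≤ κ * (j : ℝ) := by positivity
    linarith
  have hlog2 : Real.log 2 < 1 := by
    have := Real.log_two_lt_d9
    linarith
  have hlog2' : 0 < Real.log 2 := Real.log_pos (by norm_num)
  have hXp : (0 : ℝ) < X := by exact_mod_cast g1
  have hxp : 0 < x := by linarith
  have hX5 : 0 < X5 X := by
    unfold X5
    positivity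
  have hUp : 0 < US κ (zt X) T := lt_of_lt_of_le (by positivity) hT1
  have hlo : x - (Real.log 2 + 5 * l) ≤ sg (vlog κ (zt X)) T := by
    rw [← log_US κ _ hz1]
    have h3 := Real.log_le_log (by positivity) hT1
    have h4 : Real.log (X5 X / 2) = x - (Real.log 2 + 5 * l) := by
      unfold X5
      rw [Real.log_div (by positivity) (by norm_num), Real.log_div hXp.ne' (by positivity),
        Real.log_pow]
      push_cast
      ring
    rw [h4] at h3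
    exact h3
  have hhi : sg (vlog κ (zt X)) T ≤ x := by
    rw [← log_US κ _ hz1]
    exact Real.log_le_log hUp hT2
  have hT8 : T.card ≤ 10 := by
    by_contra hc
    have hc9 : 11 ≤ T.card := by omega
    have h5 : (zt X : ℝ) ^ T.card ≤ US κ (zt X) T := by
      unfold US
      rw [← Finset.prod_const]
      refine Finset.prod_le_prod (fun _ _ => by positivity) fun j _ => ?_
      unfold ub
      have h6 : (1 : ℝ) ≤ Real.exp (κ * j) := Real.one_le_exp (by positivity)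
      nlinarith
    have h7 : (zt X : ℝ) ^ 11 ≤ (zt X : ℝ) ^ T.card := pow_le_pow_right₀ hzr hc9
    linarith
  refine ⟨hT8, fun hg => ⟨p1, by linarith, hhi, fun j _ => lt_of_lt_of_le p3 (hzj j), hg⟩,
    fun hc1 => ?_⟩
  obtain ⟨j, rfl⟩ := Finset.card_eq_one.1 hc1
  rintro ⟨S, hS, hS1, hS2⟩
  obtain ⟨q1, q2, q3, q4, q5, q6, q7, q8⟩ := p1
  rcases Finset.subset_singleton_iff.1 hS with rfl | rfl
  · have hsg0 : sg (vlog κ (zt X)) (∅ : Finset ℕ) = 0 := by simp [sg]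
    rw [hsg0] at hS1
    linarith
  · linarith

theorem tyY {th e τ : ℝ} (hA : AdmY th e τ) (B' : ℕ) (hB : 1 ≤ B') : ∃ X0 : ℕ, ∀ X : ℕ, X0 ≤ X →
    ParY (kp B' X) (Real.log X) (τ * Real.log X) (bI th e * Real.log X) (lK th τ * Real.log X)
      (Real.log (Real.log X)) ∧
    ∀ T : Finset ℕ, X5 X / 2 ≤ US (kp B' X) (zt X) T → US (kp B' X) (zt X) T ≤ X →
    (amY τ (bI th e) (lK th τ) (kp B' X) X T = 0 ∧ T.card ≠ 1) ∨
      (TyY (vlog (kp B' X) (zt X)) (kp B' X) (Real.log X) (τ * Real.log X)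
        (bI th e * Real.log X) (lK th τ * Real.log X) (Real.log (Real.log X)) T ∧
      amY τ (bI th e) (lK th τ) (kp B' X) X T = ∑ S ∈ T.powerset, lamY (vlog (kp B' X) (zt X))
        (Real.log X) (lK th τ * Real.log X) (Real.log (Real.log X)) S) := by
  obtain ⟨X0, h⟩ := ty_y hA B' hB
  refine ⟨X0, fun X hX => ?_⟩
  obtain ⟨p1, h⟩ := h X hX
  refine ⟨p1, fun T hT1 hT2 => ?_⟩
  obtain ⟨h1, h2, h3⟩ := h T hT1 hT2
  by_cases hg : gdT (vlog (kp B' X) (zt X)) (kp B' X) (τ * Real.log X) (bI th e * Real.log X) T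
  · left
    refine ⟨?_, fun hc => h3 hc hg⟩
    unfold amY Wl wT
    rw [if_pos h1, if_pos hg]
  · right
    refine ⟨h2 hg, ?_⟩
    unfold amY Wl wT
    rw [if_pos h1, if_neg hg]

/-- the values: `1` on one box, `≤ 0` on more -/
theorem clY (hV : ValY) {th e τ : ℝ} (hA : AdmY th e τ) (B' : ℕ) (hB : 1 ≤ B') :
    ∃ X0 : ℕ, ∀ X : ℕ, X0 ≤ X →
    ∀ T : Finset ℕ, X5 X / 2 ≤ US (kp B' X) (zt X) T → US (kp B' X) (zt X) T ≤ X →
    (T.card = 1 → amY τ (bI th e) (lK th τ) (kp B' X) X T = 1) ∧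
    (2 ≤ T.card → amY τ (bI th e) (lK th τ) (kp B' X) X T ≤ 0) := by
  obtain ⟨X0, h⟩ := tyY hA B' hB
  refine ⟨X0, fun X hX T hT1 hT2 => ?_⟩
  rcases (h X hX).2 T hT1 hT2 with ⟨h1, h2⟩ | ⟨h1, h2⟩
  · rw [h1]
    exact ⟨fun hc => absurd hc h2, fun _ => le_rfl⟩
  · obtain ⟨-, v1, v2, -⟩ := hV _ _ _ _ _ _ _ _ h1 _ h2
    exact ⟨v1, v2⟩

theorem tyclY (hV : ValY) {th e τ : ℝ} (hA : AdmY th e τ) (B' : ℕ) (hB : 1 ≤ B') :
    ∃ X0 : ℕ, ∀ X : ℕ, X0 ≤ X → IY.TyCL (kp B' X) X (amY τ (bI th e) (lK th τ) (kp B' X) X)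
      (fun T => -amY τ (bI th e) (lK th τ) (kp B' X) X T + if T.card = 1 then 1 else 0) := by
  obtain ⟨X0, h⟩ := clY hV hA B' hB
  refine ⟨X0, fun X hX T hT1 hT2 => ?_⟩
  obtain ⟨h1, h2⟩ := h X hX T hT1 hT2
  refine ⟨fun hc => ?_, fun hc => ?_⟩
  · have k1 := h1 hc
    refine ⟨k1, ?_⟩
    simp only [k1, hc, if_true]
    norm_num
  · have k1 := h2 hc
    refine ⟨k1, ?_, ?_⟩
    · show 0 ≤ _ + (_ + _)
      rw [if_neg (by omega)]
      linarith
    · show 0 ≤ _ + _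
      rw [if_neg (by omega)]
      linarith

/-! ### Bounds and supports -/

theorem lamY_bd (v : ℕ → ℝ) (x w l : ℝ) (S : Finset ℕ) : |lamY v x w l S| ≤ 2 := by
  unfold lamY
  split_ifs <;> norm_num

theorem lamY_supp {v : ℕ → ℝ} {κ x a b w l : ℝ} (p : ParY κ x a b w l) {S : Finset ℕ}
    (h : lamY v x w l S ≠ 0) : sg v S ≤ w := by
  obtain ⟨q1, q2, q3, q4, q5, q6, q7, q8⟩ := p
  unfold lamY at h
  by_cases c0 : S.card = 0
  · have : S = ∅ := Finset.card_eq_zero.1 c0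
    rw [this]
    simp only [sg, Finset.sum_empty]
    linarith
  · rw [if_neg c0] at h
    by_cases c1 : S.card = 1
    · rw [if_pos c1] at h
      by_cases c3 : sg v S ≤ x / 2
      · linarith
      · exact absurd (if_neg c3) h
    · rw [if_neg c1] at h
      by_cases c2 : S.card = 2
      · rw [if_pos c2] at h
        by_contra c3
        rw [if_neg (by intro h; linarith), if_neg (by intro h; linarith), if_neg c3] at h
        exact h rfl
      · rw [if_neg c2] at h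
        exact absurd rfl h

private theorem wl_bd {α β κ : ℝ} {X : ℕ} {lam : Finset ℕ → ℝ} (h : ∀ S, |lam S| ≤ 2 ^ 13)
    (T : Finset ℕ) : |Wl α β κ X lam T| ≤ 2 ^ 23 := by
  unfold Wl wT
  split_ifs with h8 hg
  · simp
  · calc |∑ S ∈ T.powerset, lam S| ≤ ∑ S ∈ T.powerset, |lam S| := Finset.abs_sum_le_sum_abs _ _
      _ ≤ ∑ _S ∈ T.powerset, (2 : ℝ) ^ 13 := Finset.sum_le_sum fun S _ => h S
      _ = 2 ^ T.card * 2 ^ 13 := by
          rw [Finset.sum_const, Finset.card_powerset, nsmul_eq_mul]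
          push_cast
          ring
      _ ≤ 2 ^ 10 * 2 ^ 13 := by
          have : (2 : ℝ) ^ T.card ≤ 2 ^ 10 := pow_le_pow_right₀ (by norm_num) h8
          linarith
      _ ≤ 2 ^ 23 := by norm_num
  · simp

/-- bounds for the values -/
theorem bdY (α β ℓ κ : ℝ) (X : ℕ) (T : Finset ℕ) : |amY α β ℓ κ X T| ≤ 2 ^ 23 :=
  wl_bd (fun S => (lamY_bd _ _ _ _ S).trans (by norm_num)) T

/-- (W2) -/
theorem decY (B : ℕ) : ∃ B0 : ℕ, ∀ B' : ℕ, B0 ≤ B' → ∃ C2 : ℕ, ∀ th e τ : ℝ, AdmY th e τ →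
    JX.DecJ B C2 th e τ (fun X => wty (kp B' X) X (amY τ (bI th e) (lK th τ) (kp B' X) X)) := by
  obtain ⟨B0, h⟩ := decK_types B
  refine ⟨B0, fun B' hB' => ?_⟩
  obtain ⟨C2, h⟩ := h B' hB'
  refine ⟨C2, fun th e τ hA => ?_⟩
  obtain ⟨X0, hX0⟩ := l_big τ hA.pos
  have hA' := hA
  have hlog : 0 < Real.log (3 / 2 : ℝ) := Real.log_pos (by norm_num)
  obtain ⟨h1, h2, h3, h4, h5⟩ := hA
  have ht0 : 0 < τ := by linarith
  have a2 : τ + 1 / 10 < bI th e := by unfold bI; linarith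
  have a3 : bI th e < 1 / 2 := by unfold bI; linarith
  have a4 : lK th τ + τ < JX.lv th e := by
    unfold lK JX.lv
    rw [lt_min_iff]
    constructor <;> linarith
  refine decJ_of_decW (h τ (bI th e) (lK th τ) (JX.lv th e) ht0 a2 a3 a4 (fun X => lamY
    (vlog (kp B' X) (zt X)) (Real.log X) (lK th τ * Real.log X) (Real.log (Real.log X)))
    ⟨X0, fun X hX => ?_⟩)
  obtain ⟨g1, g2, g3, g4, g5, g6, gz⟩ := hX0 X hX
  obtain ⟨p1, -⟩ := par_y (κ := 0) hA' g3 (by norm_num) g6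
  refine ⟨fun S => (lamY_bd _ _ _ _ S).trans (by norm_num), fun S hS => ?_⟩
  have := lamY_supp p1 hS
  rw [sub_sub_cancel]
  linarith

end Pool.MP_e3f158_nt.TY
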