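import Pool.Agent.Lib.MP_e3f158_nt.TY.Fam
import Pool.Agent.Lib.MP_e3f158_nt.TL.GDefs
import Pool.Agent.Lib.MP_dd84fd_nt.LX.LMn

/-!
# MP_e3f158_nt, Theorem T with exponent `1/6`: `FamGL (1/6) (1/10)`
-/

set_option autoImplicit false

namespace Pool.MP_e3f158_nt.TY

open Finset Pool.MP_dd84fd_nt.HX Pool.MP_dd84fd_nt.IY Pool.MP_dd84fd_nt.KX
open Pool.MP_dd84fd_nt.IX (W1 MajI)
open Pool.MP_dd84fd_nt.JX (Adm DecJ)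
open Pool.MP_dd84fd_nt
open Pool.Agent.Lib.MP_e3f158_nt.TL (FamGL)

/-- the density of the minorant is `≥ a0` -/
def NumY (a0 : ℝ) : Prop := ∀ th e τ : ℝ, AdmY th e τ → ∀ B' : ℕ, 1 ≤ B' → ∃ X0 : ℕ, ∀ X : ℕ,
  X0 ≤ X → ∀ n : ℕ, IY.X5 X < n → n ≤ X →
    a0 ≤ Real.log n * IY.gty (IY.kp B' X) X (amY τ (IY.bI th e) (lK th τ) (IY.kp B' X) X) n

theorem famGL (hV : ValY) (a0 : ℝ) (hN : NumY a0) (hAd : ∀ th e τ : ℝ, AdmY th e τ → Adm th e τ) :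
    FamGL (1 / 6) a0 := by
  intro B
  obtain ⟨B0, hB0⟩ := decY B
  obtain ⟨B', hB'0, hB'1⟩ : ∃ B' : ℕ, B0 ≤ B' ∧ 1 ≤ B' :=
    ⟨max B0 1, le_max_left _ _, le_max_right _ _⟩
  obtain ⟨C2, hCs⟩ := hB0 B' hB'0
  refine ⟨2 ^ 24, B' + 3, C2, fun th0 h1 _ => ?_⟩
  obtain ⟨th, hth⟩ : ∃ th : ℝ, th = min th0 (1 / 6 + 1 / 5000) := ⟨_, rfl⟩
  have t1 : 1 / 6 < th := by
    rw [hth]
    exact lt_min h1 (by norm_num)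
  have t2 : th ≤ th0 := by rw [hth]; exact min_le_left _ _
  have t3 : th ≤ 1 / 6 + 1 / 5000 := by rw [hth]; exact min_le_right _ _
  obtain ⟨τ, hτ⟩ : ∃ τ : ℝ, τ = (th - 1 / 6) / 16 := ⟨_, rfl⟩
  obtain ⟨e, he⟩ : ∃ e : ℝ, e = τ / 1000 := ⟨_, rfl⟩
  have τ0 : 0 < τ := by rw [hτ]; linarith
  have he0 : 0 < e := by rw [he]; positivity
  have hA : AdmY th e τ := ⟨t1, t3, he0, by rw [he]; linarith, by rw [hτ]; linarith⟩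
  have bA : ∀ X : ℕ, ∀ T : Finset ℕ,
      |amY τ (IY.bI th e) (lK th τ) (IY.kp B' X) X T| ≤ ((2 ^ 24 : ℕ) : ℝ) :=
    fun X T => (bdY _ _ _ _ X T).trans (by norm_num)
  refine ⟨th, t1, t2, e, τ, hAd th e τ hA, by rw [he]; linarith,
    fun X => IY.wty (IY.kp B' X) X (amY τ (IY.bI th e) (lK th τ) (IY.kp B' X) X),
    fun X => IY.gty (IY.kp B' X) X (amY τ (IY.bI th e) (lK th τ) (IY.kp B' X) X),
    IY.w1_i B' (2 ^ 24) (by norm_num) _ bA, hCs th e τ hA, IY.majI_i B' (2 ^ 24) _ bA, ?_⟩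
  obtain ⟨X1, hX1⟩ := tyclY hV hA B' hB'1
  obtain ⟨X2, hX2⟩ := IY.cl_num B' hB'1
  obtain ⟨X3, hX3⟩ := hN th e τ hA B' hB'1
  refine ⟨max X1 (max X2 X3), fun X hX m hm1 hm2 => ?_⟩
  simp only [max_le_iff] at hX
  obtain ⟨g1, g2, g3⟩ := hX
  obtain ⟨v1, -, -⟩ := hX2 X g2 _ _ (hX1 X g1) m
  refine ⟨v1.trans ?_, hX3 X g3 m hm1 hm2⟩
  unfold IY.pI
  by_cases hp : m.Prime
  · rw [if_pos hp]
    split_ifs <;> norm_num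
  · rw [if_neg hp, if_neg (fun h => hp h.2.2)]

end Pool.MP_e3f158_nt.TY
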