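import Pool.Agent.Lib.MP_dd84fd_nt.MX.TmB

/-!
# MP_e3f158_nt, Theorem T with exponent `1/6`: the leaf functions

`l` = cells of the small prime factors, largest first, `t` their sum; `v * 10^9 G / m + 1`, `v` = bound for
`- amY` on the cell, `m` = lower bound for `G log (n/k) / log X`.
-/

set_option autoImplicit false

namespace Pool.MP_e3f158_nt.TY

/-- `10^9 G / m`, rounded up, `m = max h (G - t - s - 1)` -/
def qY (G s h t : ℕ) : ℕ := 10 ^ 9 * G / max h (G - t - s - 1) + 1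

/-- two boxes -/
def lf1 (G : ℕ) (_h t : ℕ) : List ℕ → ℕ
  | [c] => if G < t + c then 0 else if 2 * c + 4 ≤ G then 0 else qY G 1 c t
  | _ => 0

/-- three boxes -/
def v2Y (G t : ℕ) : ℕ :=
  if 5 * (t + 3) ≤ 2 * G then 0 else if G + 2 ≤ 2 * t ∧ 12 * (t + 3) ≤ 7 * G then 0
  else if 2 * (t + 3) ≤ G then 2 else if G + 2 ≤ 2 * t then 2 else 3

def lf2 (G : ℕ) (_h t : ℕ) : List ℕ → ℕ
  | [b, _] => if G < t + b then 0 else v2Y G t * qY G 2 b t
  | _ => 0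

/-- a pair of small cells, four boxes -/
def v3Y (G t : ℕ) : ℕ :=
  if 5 * (t + 3) ≤ 2 * G then 0 else if 5 * G + 12 ≤ 12 * t ∧ 2 * (t + 3) ≤ G then 0
  else if G + 2 ≤ 2 * t ∧ 12 * (t + 3) ≤ 7 * G then 0 else if 3 * G + 5 ≤ 5 * t then 0
  else if 2 * (t + 3) ≤ G then 2 else if G + 2 ≤ 2 * t then 2 else 3

/-- four boxes -/
def lf3 (G : ℕ) (_h t : ℕ) : List ℕ → ℕ
  | [c, b, a] => if G < t + c then 0 else
      (v3Y G (a + b) + v3Y G (a + c) + v3Y G (b + c)) * qY G 3 c t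
  | _ => 0

/-- five boxes -/
def lf4 (G : ℕ) (_h t : ℕ) : List ℕ → ℕ
  | [d, _, _, _] => if G < t + d then 0 else 14 * qY G 4 d t
  | _ => 0

end Pool.MP_e3f158_nt.TY
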