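import Pool.Agent.Lib.MP_e3f158_nt.TY.Lf

/-!
# MP_e3f158_nt, Theorem T with exponent `1/6`: the values of the cell trees
-/

set_option autoImplicit false

namespace Pool.MP_e3f158_nt.TY

open Pool.MP_dd84fd_nt.MX

set_option maxRecDepth 1000000 in
theorem tb1 : rootV (evA (lf1 1200) 1200 601 0) 200 (min 601 (1200 / (0 + 2) + 1) - 200) ≤ 6672652 := by
  decide +kernel

set_option maxRecDepth 1000000 in
theorem tb2 : rootV (evA (lf2 1200) 1200 601 1) 200 (min 601 (1200 / (1 + 2) + 1) - 200) ≤ 759283407 := by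
  decide +kernel

set_option maxRecDepth 1000000 in
theorem tb3 : rootV (evA (lf3 360) 360 181 2) 60 (min 181 (360 / (2 + 2) + 1) - 60) ≤ 103483787 := by
  decide +kernel

set_option maxRecDepth 1000000 in
theorem tb4 : rootV (evA (lf4 180) 180 91 3) 30 (min 91 (180 / (3 + 2) + 1) - 30) ≤ 18744065 := by
  decide +kernel

end Pool.MP_e3f158_nt.TY
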