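import Pool.Agent.Lib.MP_e3f158_nt.TY.NumB
import Pool.Agent.Lib.MP_e3f158_nt.TY.Tb

/-!
# MP_e3f158_nt, Theorem T with exponent `1/6`, numerics: the density of the minorant (helper2)
-/

set_option autoImplicit false

namespace Pool.MP_e3f158_nt.TY

open Finset Pool.MP_67663b_nt.Odd Pool.MP_dd84fd_nt.En Pool.MP_dd84fd_nt.E2 Pool.MP_dd84fd_nt.HX
  Pool.MP_dd84fd_nt.IY Pool.MP_dd84fd_nt.KX Pool.MP_dd84fd_nt.LX Pool.MP_dd84fd_nt.MX

/-- the facts at one `k` with a nonzero value `A` -/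
def PwY (X n k : ℕ) (A : ℝ) : Prop :=
  A ≤ 0 ∧ (A ≠ 0 → (k.primeFactors.card = 1 ∨ k.primeFactors.card = 2 ∨ k.primeFactors.card = 3 ∨
    k.primeFactors.card = 4) ∧
    (∀ G : ℕ, 20 ≤ G → G ≤ 1200 → 6 ∣ G → ∀ p ∈ k.primeFactors,
      G / 6 ≤ cel (PG G) X p ∧ cel (PG G) X p < G / 2 + 1) ∧
    (k.primeFactors.card = 1 → -A * (Real.log n / Real.log ((n : ℝ) / k)) ≤
      (lf1 1200 ((cL (PG 1200) X k).reverse.headD 0) (cL (PG 1200) X k).reverse.sum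
      (cL (PG 1200) X k).reverse : ℕ) / 10 ^ 9) ∧
    (k.primeFactors.card = 2 → -A * (Real.log n / Real.log ((n : ℝ) / k)) ≤
      (lf2 1200 ((cL (PG 1200) X k).reverse.headD 0) (cL (PG 1200) X k).reverse.sum
      (cL (PG 1200) X k).reverse : ℕ) / 10 ^ 9) ∧
    (k.primeFactors.card = 3 → -A * (Real.log n / Real.log ((n : ℝ) / k)) ≤
      (lf3 360 ((cL (PG 360) X k).reverse.headD 0) (cL (PG 360) X k).reverse.sum
      (cL (PG 360) X k).reverse : ℕ) / 10 ^ 9) ∧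
    (k.primeFactors.card = 4 → -A * (Real.log n / Real.log ((n : ℝ) / k)) ≤
      (lf4 180 ((cL (PG 180) X k).reverse.headD 0) (cL (PG 180) X k).reverse.sum
      (cL (PG 180) X k).reverse : ℕ) / 10 ^ 9))

theorem pwY (hV : ValY) {th e τ : ℝ} (hA : AdmY th e τ) (B' : ℕ) (hB : 1 ≤ B') :
    ∃ X0 : ℕ, ∀ X : ℕ, X0 ≤ X → ∀ n k : ℕ,
    X5 X < n → n ≤ X → 2 ≤ k → Simp (kp B' X) (zt X) k → (zt X : ℝ) ≤ (n : ℝ) / k →
    (∀ j ∈ ty (kp B' X) (zt X) k, j < bx (kp B' X) (zt X) ((n : ℝ) / k)) →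
    PwY X n k (amY τ (bI th e) (lK th τ) (kp B' X) X
        (insert (bx (kp B' X) (zt X) ((n : ℝ) / k)) (ty (kp B' X) (zt X) k))) := by
  obtain ⟨X1, hF⟩ := fY B' hB
  obtain ⟨X2, hT⟩ := tyY hA B' hB
  obtain ⟨X3, hU⟩ := us_v B' hB
  obtain ⟨X4, hC⟩ := clY hV hA B' hB
  refine ⟨X1 + X2 + X3 + X4, fun X hX n k hn1 hn2 hk hS hz hj => ?_⟩
  obtain ⟨hX1, hF⟩ := hF X (by omega)
  obtain ⟨hkX, F⟩ := hF n k hn1 hn2 (by omega) hS hz hj
  obtain ⟨u1, u2, u3⟩ := hU X (by omega) n k hn1 hn2 (by omega) hS hz hj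
  have hpf1 : 1 ≤ k.primeFactors.card := by
    rw [Nat.one_le_iff_ne_zero, Ne, Finset.card_eq_zero, Nat.primeFactors_eq_empty]
    omega
  obtain ⟨T, hTd⟩ : ∃ T, T = insert (bx (kp B' X) (zt X) ((n : ℝ) / k)) (ty (kp B' X) (zt X) k) :=
    ⟨_, rfl⟩
  rw [← hTd] at u1 u2 u3 ⊢
  refine ⟨(hC X (by omega) T u1 u2).2 (by omega), fun hA0 => ?_⟩
  obtain ⟨pp, hT⟩ := hT X (by omega)
  rcases hT T u1 u2 with ⟨h1, -⟩ | ⟨h1, h2⟩
  · exact absurd h1 hA0
  obtain ⟨⟨-, c5, hbox⟩, -, -, w2, w3, w4, w5⟩ := hV _ _ _ _ _ _ _ _ h1 _ h2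
  have hTi : T = insert (bx (kp B' X) (zt X) ((n : ℝ) / k))
      (k.primeFactors.image (fun p : ℕ => bx (kp B' X) (zt X) p)) := hTd
  obtain ⟨q1, q2, q3, q4, q5, q6, q7, q8⟩ := pp
  have hx0 : 0 < Real.log (X : ℝ) := Real.log_pos (by exact_mod_cast hX1)
  have hcell : ∀ G : ℕ, 20 ≤ G → G ≤ 1200 → 6 ∣ G → ∀ p ∈ k.primeFactors,
      G / 6 ≤ cel (PG G) X p ∧ cel (PG G) X p < G / 2 + 1 := by
    intro G g1 g2 g3 p hp
    obtain ⟨m, rfl⟩ := g3
    have hpp := Nat.prime_of_mem_primeFactors hp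
    have hp0 : (0 : ℝ) < p := by exact_mod_cast hpp.pos
    have b1 := hbox (bx (kp B' X) (zt X) p) (by
      rw [hTi]
      exact Finset.mem_insert_of_mem (Finset.mem_image_of_mem _ hp))
    have b2 := F.hp1 p hp
    have b3 := F.hple p hp
    have b4 := F.hy
    have b5 := F.hn2
    have b6 : Real.log p ≤ Real.log k := Real.log_le_log hp0 (by
      exact_mod_cast Nat.le_of_mem_primeFactors hp)
    have r1 : (1 : ℝ) / 6 ≤ Real.log p / Real.log X := by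
      rw [le_div_iff₀ hx0]
      linarith
    have r2 : Real.log p / Real.log X ≤ 1 / 2 := by
      rw [div_le_iff₀ hx0]
      linarith
    have hm : (0 : ℝ) ≤ m := Nat.cast_nonneg m
    unfold cel
    show 6 * m / 6 ≤ ⌊((6 * m : ℕ) : ℝ) * (Real.log p / Real.log X)⌋₊ ∧
      ⌊((6 * m : ℕ) : ℝ) * (Real.log p / Real.log X)⌋₊ < 6 * m / 2 + 1
    have e1 : 6 * m / 6 = m := by omega
    have e2 : 6 * m / 2 = 3 * m := by omega
    rw [e1, e2]
    push_cast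
    constructor
    · apply Nat.le_floor
      nlinarith
    · rw [Nat.floor_lt (by positivity)]
      push_cast
      nlinarith
  have hd : ∀ {B : ℝ} {Q : ℕ}, B * 10 ^ 9 ≤ Q → B ≤ (Q : ℝ) / 10 ^ 9 := fun h => by
    rw [le_div_iff₀ (by positivity)]
    exact h
  refine ⟨by omega, hcell, fun h => hd ?_, fun h => hd ?_, fun h => hd ?_, fun h => hd ?_⟩
  · exact leaf1 F rfl (by norm_num) (by norm_num) hTi h
      (fun p hp => by have := (hcell 1200 (by norm_num) le_rfl (by norm_num) p hp).1; omega) w2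
  · exact leaf2 F rfl (by norm_num) (by norm_num) q7 hTi h
      (fun p hp => by have := (hcell 1200 (by norm_num) le_rfl (by norm_num) p hp).1; omega) w3
  · exact leaf3 F rfl (by norm_num) (by norm_num) hTi h
      (fun p hp => by have := (hcell 360 (by norm_num) (by norm_num) (by norm_num) p hp).1; omega) w4
  · exact leaf4 F rfl (by norm_num) (by norm_num) h
      (fun p hp => by have := (hcell 180 (by norm_num) (by norm_num) (by norm_num) p hp).1; omega)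
      (w5 (by omega))

/-- the value at `k = 1` -/
theorem oneY (hV : ValY) {th e τ : ℝ} (hA : AdmY th e τ) (B' : ℕ) (hB : 1 ≤ B') :
    ∃ X0 : ℕ, ∀ X : ℕ, X0 ≤ X → ∀ n : ℕ, X5 X < n → n ≤ X →
    amY τ (bI th e) (lK th τ) (kp B' X) X
        (insert (bx (kp B' X) (zt X) ((n : ℝ) / (1 : ℕ))) (ty (kp B' X) (zt X) 1)) = 1 := by
  classical
  obtain ⟨X1, hC⟩ := clY hV hA B' hB
  obtain ⟨X2, hU⟩ := us_v B' hB
  obtain ⟨X3, hX3⟩ := X5_ge
  refine ⟨X1 + X2 + X3 + 2, ?_⟩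
  intro X hX n hn hnX
  obtain ⟨h51, -⟩ := hX3 X (by omega)
  have hsimp : Simp (kp B' X) (zt X) 1 := by
    refine ⟨⟨one_ne_zero, ?_⟩, squarefree_one, ?_⟩
    · intro p hp
      simp at hp
    · intro p hp
      simp at hp
  have hty : ty (kp B' X) (zt X) 1 = ∅ := by
    unfold ty
    simp
  have hnz : (zt X : ℝ) ≤ (n : ℝ) / (1 : ℕ) := by
    rw [Nat.cast_one, div_one]
    linarith
  have hj : ∀ j ∈ ty (kp B' X) (zt X) 1, j < bx (kp B' X) (zt X) ((n : ℝ) / (1 : ℕ)) := by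
    rw [hty]
    intro j hj
    simp at hj
  obtain ⟨u1, u2, u3⟩ := hU X (by omega) n 1 hn hnX le_rfl hsimp hnz hj
  exact (hC X (by omega) _ u1 u2).1 (by rw [u3]; simp)

theorem split4 (K : Finset ℕ) (B g : ℕ → ℝ) (c : ℕ → ℕ)
    (h : ∀ k ∈ K, B k ≠ 0 → c k = 1 ∨ c k = 2 ∨ c k = 3 ∨ c k = 4)
    (h0 : ∀ k ∈ K, B k = 0 → g k = 0) : ∑ k ∈ K, g k =
      ∑ k ∈ K.filter (fun k => B k ≠ 0 ∧ c k = 1), g k +
      ∑ k ∈ K.filter (fun k => B k ≠ 0 ∧ c k = 2), g k +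
      ∑ k ∈ K.filter (fun k => B k ≠ 0 ∧ c k = 3), g k +
      ∑ k ∈ K.filter (fun k => B k ≠ 0 ∧ c k = 4), g k := by
  classical
  rw [Finset.sum_filter, Finset.sum_filter, Finset.sum_filter, Finset.sum_filter,
    ← Finset.sum_add_distrib, ← Finset.sum_add_distrib, ← Finset.sum_add_distrib]
  refine Finset.sum_congr rfl fun k hk => ?_
  by_cases hB : B k = 0
  · simp [h0 k hk hB]
  · rcases h k hk hB with h' | h' | h' | h' <;> simp [hB, h']

/-- **the density of the minorant is at least `1/10`** -/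
theorem numY (hV : ValY) {th e τ : ℝ} (hA : AdmY th e τ) (B' : ℕ) (hB : 1 ≤ B') :
    ∃ X0 : ℕ, ∀ X : ℕ, X0 ≤ X → ∀ n : ℕ, X5 X < n → n ≤ X →
      1 / 10 ≤ Real.log n * gty (kp B' X) X (amY τ (bI th e) (lK th τ) (kp B' X) X) n := by
  classical
  obtain ⟨X1, hpw⟩ := pwY hV hA B' hB
  obtain ⟨X2, hone⟩ := oneY hV hA B' hB
  obtain ⟨X3, h5⟩ := X5_ge
  obtain ⟨X4, hz6⟩ := zt_log
  obtain ⟨Y1, t1⟩ := tree_val 1200 200 601 0 6672652 (by norm_num) (by norm_num) (by norm_num)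
    (by norm_num) (lf1 1200) (hz1 1200) tb1
  obtain ⟨Y2, t2⟩ := tree_val 1200 200 601 1 759283407 (by norm_num) (by norm_num) (by norm_num)
    (by norm_num) (lf2 1200) (hz2 1200) tb2
  obtain ⟨Y3, t3⟩ := tree_val 360 60 181 2 103483787 (by norm_num) (by norm_num) (by norm_num)
    (by norm_num) (lf3 360) (hz3 360) tb3
  obtain ⟨Y4, t4⟩ := tree_val 180 30 91 3 18744065 (by norm_num) (by norm_num) (by norm_num)
    (by norm_num) (lf4 180) (hz4 180) tb4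
  refine ⟨X1 + X2 + X3 + X4 + Y1 + Y2 + Y3 + Y4 + 2, fun X hX n hn1 hn2 => ?_⟩
  set κ := kp B' X with hκ
  set z := zt X with hz
  set W := amY τ (bI th e) (lK th τ) κ X with hW
  obtain ⟨h51, -⟩ := h5 X (by omega)
  obtain ⟨hz2', -⟩ := hz6 X (by omega)
  have hz2'' : (2 : ℝ) ≤ zt X := by exact_mod_cast hz2'
  have hnz : (zt X : ℝ) ≤ n := by linarith
  have hn2' : (2 : ℝ) ≤ n := by linarith
  have hlogn : 0 < Real.log (n : ℝ) := Real.log_pos (by linarith)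
  have hn0 : (0 : ℝ) < n := by linarith
  set K : Finset ℕ := (Icc 2 X).filter (fun k : ℕ => Simp κ z k ∧ (z : ℝ) ≤ (n : ℝ) / k ∧
    ∀ j ∈ ty κ z k, j < bx κ z ((n : ℝ) / k)) with hK
  set Bv : ℕ → ℝ := fun k => W (insert (bx κ z ((n : ℝ) / k)) (ty κ z k)) with hBv
  set φ : ℕ → ℝ := fun k => -Bv k * (Real.log n / Real.log ((n : ℝ) / k)) with hφ
  have hKP : ∀ k ∈ K, PwY X n k (Bv k) ∧ k ∈ Icc 1 X ∧ Squarefree k := by
    intro k hkK
    rw [hK, Finset.mem_filter, Finset.mem_Icc] at hkK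
    obtain ⟨⟨hk2', hkX⟩, hk2, hk3, hk4⟩ := hkK
    exact ⟨hpw X (by omega) n k hn1 hn2 hk2' hk2 hk3 hk4, Finset.mem_Icc.2 ⟨by omega, hkX⟩, hk2.2.1⟩
  -- the parts
  have hpart : ∀ s : ℕ, ∀ k ∈ K.filter (fun k => Bv k ≠ 0 ∧ k.primeFactors.card = s),
      PwY X n k (Bv k) ∧ Bv k ≠ 0 ∧ k ∈ Icc 1 X ∧ Squarefree k ∧ k.primeFactors.card = s := by
    intro s k hk
    rw [Finset.mem_filter] at hk
    obtain ⟨a1, a2, a3⟩ := hKP k hk.1
    exact ⟨a1, hk.2.1, a2, a3, hk.2.2⟩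
  have s1 : ∑ k ∈ K.filter (fun k => Bv k ≠ 0 ∧ k.primeFactors.card = 1), φ k / k ≤
      (6672652 : ℕ) / 10 ^ 9 := t1 X (by omega) _ (fun k hk => by
    obtain ⟨a1, a2, a3, a4, a5⟩ := hpart 1 k hk
    exact ⟨a3, a4, a5, (a1.2 a2).2.1 1200 (by norm_num) le_rfl (by norm_num)⟩) φ (fun k hk => by
    obtain ⟨a1, a2, a3, a4, a5⟩ := hpart 1 k hk
    exact (a1.2 a2).2.2.1 a5)
  have s2 : ∑ k ∈ K.filter (fun k => Bv k ≠ 0 ∧ k.primeFactors.card = 2), φ k / k ≤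
      (759283407 : ℕ) / 10 ^ 9 := t2 X (by omega) _ (fun k hk => by
    obtain ⟨a1, a2, a3, a4, a5⟩ := hpart 2 k hk
    exact ⟨a3, a4, a5, (a1.2 a2).2.1 1200 (by norm_num) le_rfl (by norm_num)⟩) φ (fun k hk => by
    obtain ⟨a1, a2, a3, a4, a5⟩ := hpart 2 k hk
    exact (a1.2 a2).2.2.2.1 a5)
  have s3 : ∑ k ∈ K.filter (fun k => Bv k ≠ 0 ∧ k.primeFactors.card = 3), φ k / k ≤
      (103483787 : ℕ) / 10 ^ 9 := t3 X (by omega) _ (fun k hk => by
    obtain ⟨a1, a2, a3, a4, a5⟩ := hpart 3 k hk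
    exact ⟨a3, a4, a5, (a1.2 a2).2.1 360 (by norm_num) (by norm_num) (by norm_num)⟩) φ
      (fun k hk => by
    obtain ⟨a1, a2, a3, a4, a5⟩ := hpart 3 k hk
    exact (a1.2 a2).2.2.2.2.1 a5)
  have s4 : ∑ k ∈ K.filter (fun k => Bv k ≠ 0 ∧ k.primeFactors.card = 4), φ k / k ≤
      (18744065 : ℕ) / 10 ^ 9 := t4 X (by omega) _ (fun k hk => by
    obtain ⟨a1, a2, a3, a4, a5⟩ := hpart 4 k hk
    exact ⟨a3, a4, a5, (a1.2 a2).2.1 180 (by norm_num) (by norm_num) (by norm_num)⟩) φ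
      (fun k hk => by
    obtain ⟨a1, a2, a3, a4, a5⟩ := hpart 4 k hk
    exact (a1.2 a2).2.2.2.2.2 a5)
  have hsplit4 := split4 K Bv (fun k => φ k / k) (fun k => k.primeFactors.card)
    (fun k hk h0 => ((hKP k hk).1.2 h0).1) (fun k _ h0 => by
      have : φ k = 0 := by
        rw [hφ]
        simp only
        rw [h0, neg_zero, zero_mul]
      rw [this, zero_div])
  have hKsum : ∑ k ∈ K, φ k / k ≤ 9 / 10 := by
    rw [hsplit4]
    norm_num at s1 s2 s3 s4 ⊢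
    linarith
  -- the terms outside `K` vanish
  have hzero : ∀ k ∈ Icc 2 X, k ∉ K → Real.log n * (vty κ z W ((n : ℝ) / k) k /
      (k * Real.log ((n : ℝ) / k))) = 0 := by
    intro k hk hkK
    have hv : vty κ z W ((n : ℝ) / k) k = 0 := by
      unfold vty
      rw [if_neg]
      intro hcon
      apply hkK
      rw [hK, Finset.mem_filter]
      exact ⟨hk, hcon⟩
    rw [hv, zero_div, mul_zero]
  have hterm : ∀ k ∈ K, Real.log n * (vty κ z W ((n : ℝ) / k) k /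
      (k * Real.log ((n : ℝ) / k))) = -(φ k / k) := by
    intro k hkK
    rw [hK, Finset.mem_filter, Finset.mem_Icc] at hkK
    obtain ⟨⟨hk2', hkX⟩, hk2, hk3, hk4⟩ := hkK
    have hv : vty κ z W ((n : ℝ) / k) k = Bv k := by
      unfold vty
      rw [if_pos ⟨hk2, hk3, hk4⟩]
    rw [hv, hφ]
    simp only
    rw [div_mul_eq_div_div_swap]
    ring
  have hsplit : Icc 1 X = insert 1 (Icc 2 X) := by
    ext k
    simp only [Finset.mem_Icc, Finset.mem_insert]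
    omega
  have h1n : (1 : ℕ) ∉ Icc 2 X := by
    simp
  have hg2 : gty κ X W n =
      vty κ z W ((n : ℝ) / (1 : ℕ)) 1 / ((1 : ℕ) * Real.log ((n : ℝ) / (1 : ℕ))) +
      ∑ k ∈ Icc 2 X, vty κ z W ((n : ℝ) / k) k / (k * Real.log ((n : ℝ) / k)) := by
    unfold gty
    rw [if_pos ⟨hn1, hn2⟩, hsplit, Finset.sum_insert h1n]
  have hsimp : Simp κ z 1 := by
    refine ⟨⟨one_ne_zero, ?_⟩, squarefree_one, ?_⟩
    · intro p hp
      simp at hp
    · intro p hp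
      simp at hp
  have hty : ty κ z 1 = ∅ := by
    unfold ty
    simp
  have hone1 : Real.log n * (vty κ z W ((n : ℝ) / (1 : ℕ)) 1 /
      ((1 : ℕ) * Real.log ((n : ℝ) / (1 : ℕ)))) = 1 := by
    have e1 : vty κ z W ((n : ℝ) / (1 : ℕ)) 1 =
        W (insert (bx κ z ((n : ℝ) / (1 : ℕ))) (ty κ z 1)) := by
      unfold vty
      rw [if_pos ⟨hsimp, by rw [Nat.cast_one, div_one]; exact hnz, by
        rw [hty]
        intro j hj
        simp at hj⟩]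
    have hv1 : W (insert (bx κ z ((n : ℝ) / (1 : ℕ))) (ty κ z 1)) = 1 :=
      hone X (by omega) n hn1 hn2
    rw [e1, hv1, Nat.cast_one, div_one, one_mul]
    field_simp
  rw [hg2, mul_add, hone1, Finset.mul_sum]
  have hKsub : K ⊆ Icc 2 X := Finset.filter_subset _ _
  rw [← Finset.sum_subset hKsub hzero, Finset.sum_congr rfl hterm, Finset.sum_neg_distrib]
  linarith

end Pool.MP_e3f158_nt.TY
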