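import Pool.Agent.Lib.MP_e3f158_nt.TY.Defs
import Pool.Agent.Lib.MP_dd84fd_nt.LX.SvVal

/-!
# MP_e3f158_nt, Theorem T with exponent `1/6`: values of the minorant (helper63)
-/

set_option autoImplicit false

namespace Pool.MP_e3f158_nt.TY

open Finset Pool.MP_dd84fd_nt.HX Pool.MP_dd84fd_nt.IY Pool.MP_dd84fd_nt.KX Pool.MP_dd84fd_nt.LX

variable {v : ℕ → ℝ} {κ x a b w l : ℝ} {T : Finset ℕ}

/-! ### General facts on types -/

theorem TyY.box (h : TyY v κ x a b w l T) {j : ℕ} (hj : j ∈ T) : b - 1 < v j := by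
  by_contra hc
  push Not at hc
  apply h.hg
  refine ⟨{j}, by simpa using hj, ?_, ?_⟩
  · rw [sg_one]
    exact h.ha j hj
  · rw [sg_one]
    linarith [h.par.hκ]

theorem TyY.card_mul (h : TyY v κ x a b w l T) : (T.card : ℝ) * (b - 1) ≤ x := by
  have h1 : ∑ j ∈ T, (b - 1) ≤ sg v T := Finset.sum_le_sum fun j hj => (h.box hj).le
  rw [Finset.sum_const, nsmul_eq_mul] at h1
  exact h1.trans h.up

theorem ParY.pos (h : ParY κ x a b w l) : 0 < x ∧ 0 < b - 1 := by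
  obtain ⟨g1, g2, g3, g4, g5, g6, g7, g8⟩ := h
  constructor <;> linarith

theorem TyY.card_le (h : TyY v κ x a b w l T) : T.card ≤ 5 := by
  by_contra hc
  have hc' : 6 ≤ T.card := by omega
  have h1 := h.card_mul
  have h2 : (6 : ℝ) ≤ T.card := by exact_mod_cast hc'
  have h3 := h.par.h6b
  have h5 := h.par.hl
  have h6 := h.par.pos.2
  nlinarith

theorem TyY.card_pos (h : TyY v κ x a b w l T) : 1 ≤ T.card := by
  by_contra hc
  have hc' : T = ∅ := Finset.card_eq_zero.1 (by omega)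
  have h1 := h.lo
  rw [hc'] at h1
  simp only [sg, Finset.sum_empty] at h1
  have h3 := h.par.hxw
  have h4 := h.par.hwx
  have h5 := h.par.hl
  linarith

/-! ### Values of the weights -/

/-- the weight of a box -/
noncomputable def f1 (x y : ℝ) : ℝ := if y ≤ x / 2 then -1 else 0

/-- the weight of a pair with sum `s` -/
noncomputable def f2 (x w l s : ℝ) : ℝ :=
  if s < 2 * x / 5 - 3 * l then 1 else if s ≤ x / 2 then -1 else if s ≤ w then 2 else 0

section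
variable (v x w l)

theorem lamY_0 : lamY v x w l ∅ = 1 := by simp [lamY]

theorem lamY_1 (p : ℕ) : lamY v x w l {p} = f1 x (v p) := by simp [lamY, f1, sg_one]

theorem lamY_2 {p q : ℕ} (h : p ≠ q) : lamY v x w l {p, q} = f2 x w l (v p + v q) := by
  unfold lamY f2
  rw [Finset.card_pair h, sg_two v h]
  simp

theorem lamY_big {S : Finset ℕ} (h : 3 ≤ S.card) : lamY v x w l S = 0 := by
  unfold lamY
  rw [if_neg (by omega), if_neg (by omega), if_neg (by omega)]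

theorem sumY1 (p : ℕ) : ∑ S ∈ ({p} : Finset ℕ).powerset, lamY v x w l S = 1 + f1 x (v p) := by
  rw [psum1, lamY_0, lamY_1]

theorem sumY2 {p q : ℕ} (h : p ≠ q) : ∑ S ∈ ({p, q} : Finset ℕ).powerset, lamY v x w l S =
    1 + f1 x (v p) + f1 x (v q) + f2 x w l (v p + v q) := by
  rw [psum2 _ h, lamY_0, lamY_1, lamY_1, lamY_2 _ _ _ _ h]

theorem sumY3 {p q r : ℕ} (h1 : p ≠ q) (h2 : p ≠ r) (h3 : q ≠ r) :
    ∑ S ∈ ({p, q, r} : Finset ℕ).powerset, lamY v x w l S =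
      1 + f1 x (v p) + f1 x (v q) + f1 x (v r) + f2 x w l (v p + v q) + f2 x w l (v p + v r) +
        f2 x w l (v q + v r) := by
  rw [psum3 _ h1 h2 h3, lamY_0, lamY_1, lamY_1, lamY_1, lamY_2 _ _ _ _ h1,
    lamY_2 _ _ _ _ h2, lamY_2 _ _ _ _ h3, lamY_big _ _ _ _ (card3 h1 h2 h3).ge]
  ring

theorem sumY4 {p q r s : ℕ} (h1 : p ≠ q) (h2 : p ≠ r) (h3 : p ≠ s) (h4 : q ≠ r) (h5 : q ≠ s)
    (h6 : r ≠ s) :
    ∑ S ∈ ({p, q, r, s} : Finset ℕ).powerset, lamY v x w l S =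
      1 + (f1 x (v p) + f1 x (v q) + f1 x (v r) + f1 x (v s)) +
      (f2 x w l (v p + v q) + f2 x w l (v r + v s)) +
      (f2 x w l (v p + v r) + f2 x w l (v q + v s)) +
      (f2 x w l (v q + v r) + f2 x w l (v p + v s)) := by
  have h7 : ({p, q, r, s} : Finset ℕ).card = 4 := by
    rw [Finset.card_insert_of_notMem (by simp [h1, h2, h3]), card3 h4 h5 h6]
  rw [psum4 _ h1 h2 h3 h4 h5 h6, lamY_0, lamY_1, lamY_1, lamY_1, lamY_1, lamY_2 _ _ _ _ h1,
    lamY_2 _ _ _ _ h2, lamY_2 _ _ _ _ h3, lamY_2 _ _ _ _ h4, lamY_2 _ _ _ _ h5,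
    lamY_2 _ _ _ _ h6, lamY_big _ _ _ _ (card3 h1 h2 h4).ge,
    lamY_big _ _ _ _ (card3 h1 h3 h5).ge, lamY_big _ _ _ _ (card3 h2 h3 h6).ge,
    lamY_big _ _ _ _ (card3 h4 h5 h6).ge, lamY_big _ _ _ _ (by omega)]
  ring

theorem card4 {p q r s : ℕ} (h1 : p ≠ q) (h2 : p ≠ r) (h3 : p ≠ s) (h4 : q ≠ r) (h5 : q ≠ s)
    (h6 : r ≠ s) : ({p, q, r, s} : Finset ℕ).card = 4 := by
  rw [Finset.card_insert_of_notMem (by simp [h1, h2, h3]), card3 h4 h5 h6]

theorem sumY5 {p q r s t : ℕ} (a1 : p ≠ q) (a2 : p ≠ r) (a3 : p ≠ s) (a4 : p ≠ t) (h1 : q ≠ r)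
    (h2 : q ≠ s) (h3 : q ≠ t) (h4 : r ≠ s) (h5 : r ≠ t) (h6 : s ≠ t) :
    ∑ S ∈ ({p, q, r, s, t} : Finset ℕ).powerset, lamY v x w l S =
      1 + (f1 x (v p) + f1 x (v q) + f1 x (v r) + f1 x (v s) + f1 x (v t)) +
      (f2 x w l (v p + v q) + f2 x w l (v p + v r) + f2 x w l (v p + v s) + f2 x w l (v p + v t) +
      f2 x w l (v q + v r) + f2 x w l (v q + v s) + f2 x w l (v q + v t) + f2 x w l (v r + v s) +
      f2 x w l (v r + v t) + f2 x w l (v s + v t)) := by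
  have hn : p ∉ ({q, r, s, t} : Finset ℕ) := by simp [a1, a2, a3, a4]
  have h7 : ({p, q, r, s, t} : Finset ℕ).card = 5 := by
    rw [Finset.card_insert_of_notMem hn, card4 h1 h2 h3 h4 h5 h6]
  rw [Finset.sum_powerset_insert hn, psum4 _ h1 h2 h3 h4 h5 h6,
    psum4 (fun S => lamY v x w l (insert p S)) h1 h2 h3 h4 h5 h6]
  simp only [insert_empty_eq]
  rw [lamY_0, lamY_1, lamY_1, lamY_1, lamY_1, lamY_1, lamY_2 _ _ _ _ h1,
    lamY_2 _ _ _ _ h2, lamY_2 _ _ _ _ h3, lamY_2 _ _ _ _ h4, lamY_2 _ _ _ _ h5,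
    lamY_2 _ _ _ _ h6, lamY_2 _ _ _ _ a1, lamY_2 _ _ _ _ a2, lamY_2 _ _ _ _ a3,
    lamY_2 _ _ _ _ a4, lamY_big _ _ _ _ (card3 h1 h2 h4).ge,
    lamY_big _ _ _ _ (card3 h1 h3 h5).ge, lamY_big _ _ _ _ (card3 h2 h3 h6).ge,
    lamY_big _ _ _ _ (card3 h4 h5 h6).ge,
    lamY_big _ _ _ _ (show 3 ≤ ({q, r, s, t} : Finset ℕ).card by
      rw [card4 h1 h2 h3 h4 h5 h6]; norm_num),
    lamY_big _ _ _ _ (card3 a1 a2 h1).ge, lamY_big _ _ _ _ (card3 a1 a3 h2).ge,
    lamY_big _ _ _ _ (card3 a1 a4 h3).ge, lamY_big _ _ _ _ (card3 a2 a3 h4).ge,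
    lamY_big _ _ _ _ (card3 a2 a4 h5).ge, lamY_big _ _ _ _ (card3 a3 a4 h6).ge,
    lamY_big _ _ _ _ (show 3 ≤ ({p, q, r, s} : Finset ℕ).card by
      rw [card4 a1 a2 a3 h1 h2 h4]; norm_num),
    lamY_big _ _ _ _ (show 3 ≤ ({p, q, r, t} : Finset ℕ).card by
      rw [card4 a1 a2 a4 h1 h3 h5]; norm_num),
    lamY_big _ _ _ _ (show 3 ≤ ({p, q, s, t} : Finset ℕ).card by
      rw [card4 a1 a3 a4 h2 h3 h6]; norm_num),
    lamY_big _ _ _ _ (show 3 ≤ ({p, r, s, t} : Finset ℕ).card by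
      rw [card4 a2 a3 a4 h4 h5 h6]; norm_num),
    lamY_big _ _ _ _ (show 3 ≤ ({p, q, r, s, t} : Finset ℕ).card by omega)]
  ring

end

/-- five boxes, the three largest ones are `r ≤ s ≤ t` -/
theorem five_max {v : ℕ → ℝ} {T : Finset ℕ} (hc : T.card = 5) : ∃ t s p q r : ℕ, t ≠ s ∧ t ≠ p ∧
    t ≠ q ∧ t ≠ r ∧ s ≠ p ∧ s ≠ q ∧ s ≠ r ∧ p ≠ q ∧ p ≠ r ∧ q ≠ r ∧ T = {t, s, p, q, r} ∧
    v p ≤ v r ∧ v q ≤ v r ∧ v r ≤ v s ∧ v s ≤ v t := by
  obtain ⟨t, ht, hmt⟩ := Finset.exists_max_image T v (Finset.card_pos.1 (by omega))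
  have hc1 : (T.erase t).card = 4 := by rw [Finset.card_erase_of_mem ht, hc]
  obtain ⟨s, hs, hms⟩ := Finset.exists_max_image (T.erase t) v (Finset.card_pos.1 (by omega))
  have hc2 : ((T.erase t).erase s).card = 3 := by rw [Finset.card_erase_of_mem hs, hc1]
  obtain ⟨p, q, r, h1, h2, h3, hT, h4, h5⟩ := tri_max (v := v) hc2
  have hp : p ∈ (T.erase t).erase s := by rw [hT]; simp
  have hq : q ∈ (T.erase t).erase s := by rw [hT]; simp
  have hr : r ∈ (T.erase t).erase s := by rw [hT]; simp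
  simp only [Finset.mem_erase] at hp hq hr hs
  refine ⟨t, s, p, q, r, hs.1.symm, hp.2.1.symm, hq.2.1.symm, hr.2.1.symm, hp.1.symm, hq.1.symm,
    hr.1.symm, h1, h2, h3, ?_, h4, h5, hms r (by simp [hr]), hmt s hs.2⟩
  rw [← hT, Finset.insert_erase (by simp [hs]), Finset.insert_erase ht]

/-- pairs of complementary pairs -/
theorem f2_couple {κ x a b w l : ℝ} (h : ParY κ x a b w l) {y z : ℝ} (h1 : x - 6 * l ≤ y + z)
    (h2 : y + z ≤ x) : f2 x w l y + f2 x w l z ≤ 1 ∧ 1 - hY x l y ≤ f2 x w l y + f2 x w l z := by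
  obtain ⟨g1, g2, g3, g4, g5, g6, g7, g8⟩ := h
  unfold f2 hY
  constructor
  · split_ifs <;> linarith
  · split_ifs with c1 c2 c3 c4 c5 c6 c7 c8 c9 c10 <;>
      first
        | linarith
        | (exfalso
           first
             | linarith
             | (obtain ⟨_, _⟩ := ‹_ ∧ _›; linarith)
             | (apply ‹¬|y - x / 2| ≤ 6 * l›; rw [abs_le]; constructor <;> linarith))

/-- three boxes: the two smaller ones form the only small pair -/
theorem TyY.tri (h : TyY v κ x a b w l T) {p q r : ℕ} (h1 : p ≠ q) (h2 : p ≠ r) (h3 : q ≠ r)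
    (hT : T = {p, q, r}) (a1 : v p ≤ v r) (a2 : v q ≤ v r) :
    x - 6 * l ≤ v p + v q + v r ∧ v p + v q + v r ≤ x ∧ b - 1 < v p ∧ b - 1 < v q ∧
      b - 1 < v r ∧ w < v p + v r ∧ w < v q + v r := by
  have l1 := h.lo
  have l2 := h.up
  rw [hT, sg_three v h1 h2 h3] at l1 l2
  have b1 := h.box (j := p) (by rw [hT]; simp)
  have b2 := h.box (j := q) (by rw [hT]; simp)
  have b3 := h.box (j := r) (by rw [hT]; simp)
  obtain ⟨g1, g2, g3, g4, g5, g6, g7, g8⟩ := h.par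
  refine ⟨l1, l2, b1, b2, b3, ?_, ?_⟩
  · by_contra hc
    push Not at hc
    linarith
  · by_contra hc
    push Not at hc
    linarith

/-- four boxes -/
theorem TyY.four (h : TyY v κ x a b w l T) {p q r s : ℕ} (h1 : p ≠ q) (h2 : p ≠ r) (h3 : p ≠ s)
    (h4 : q ≠ r) (h5 : q ≠ s) (h6 : r ≠ s) (hT : T = {p, q, r, s}) :
    x - 6 * l ≤ v p + v q + v r + v s ∧ v p + v q + v r + v s ≤ x ∧ b - 1 < v p ∧ b - 1 < v q ∧
      b - 1 < v r ∧ b - 1 < v s := by
  have l1 := h.lo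
  have l2 := h.up
  rw [hT, sg_four v h1 h2 h3 h4 h5 h6] at l1 l2
  exact ⟨l1, l2, h.box (by rw [hT]; simp), h.box (by rw [hT]; simp), h.box (by rw [hT]; simp),
    h.box (by rw [hT]; simp)⟩

/-- two boxes -/
theorem TyY.val2 (h : TyY v κ x a b w l T) {p q : ℕ} (h1 : p ≠ q) (hT : T = {p, q}) :
    ∑ S ∈ T.powerset, lamY v x w l S = 1 + f1 x (v p) + f1 x (v q) ∧ x - 6 * l ≤ v p + v q ∧
      v p + v q ≤ x := by
  have l1 := h.lo
  have l2 := h.up
  rw [hT, sg_two v h1] at l1 l2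
  obtain ⟨g1, g2, g3, g4, g5, g6, g7, g8⟩ := h.par
  refine ⟨?_, l1, l2⟩
  rw [hT, sumY2 _ _ _ _ h1]
  have : f2 x w l (v p + v q) = 0 := by
    unfold f2
    rw [if_neg (by linarith), if_neg (by linarith), if_neg (by linarith)]
  rw [this]
  ring

/-- three boxes -/
theorem TyY.val3 (h : TyY v κ x a b w l T) {p q r : ℕ} (h1 : p ≠ q) (h2 : p ≠ r) (h3 : q ≠ r)
    (hT : T = {p, q, r}) (a1 : v p ≤ v r) (a2 : v q ≤ v r) :
    ∑ S ∈ T.powerset, lamY v x w l S = -1 + f1 x (v r) + f2 x w l (v p + v q) := by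
  obtain ⟨l1, l2, b1, b2, b3, w1, w2⟩ := h.tri h1 h2 h3 hT a1 a2
  obtain ⟨g1, g2, g3, g4, g5, g6, g7, g8⟩ := h.par
  rw [hT, sumY3 _ _ _ _ h1 h2 h3]
  have e1 : f2 x w l (v p + v r) = 0 := by
    unfold f2
    rw [if_neg (by linarith), if_neg (by linarith), if_neg (by linarith)]
  have e2 : f2 x w l (v q + v r) = 0 := by
    unfold f2
    rw [if_neg (by linarith), if_neg (by linarith), if_neg (by linarith)]
  have e3 : f1 x (v p) = -1 := by
    unfold f1
    rw [if_pos (by linarith)]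
  have e4 : f1 x (v q) = -1 := by
    unfold f1
    rw [if_pos (by linarith)]
  rw [e1, e2, e3, e4]
  ring

/-- four boxes -/
theorem TyY.val4 (h : TyY v κ x a b w l T) {p q r s : ℕ} (h1 : p ≠ q) (h2 : p ≠ r) (h3 : p ≠ s)
    (h4 : q ≠ r) (h5 : q ≠ s) (h6 : r ≠ s) (hT : T = {p, q, r, s}) :
    ∑ S ∈ T.powerset, lamY v x w l S ≤ 0 ∧
      -(hY x l (v p + v q) + hY x l (v p + v r) + hY x l (v q + v r)) ≤
        ∑ S ∈ T.powerset, lamY v x w l S := by
  obtain ⟨l1, l2, b1, b2, b3, b4⟩ := h.four h1 h2 h3 h4 h5 h6 hT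
  obtain ⟨g1, g2, g3, g4, g5, g6, g7, g8⟩ := h.par
  rw [hT, sumY4 _ _ _ _ h1 h2 h3 h4 h5 h6]
  have e1 : f1 x (v p) = -1 := by
    unfold f1
    rw [if_pos (by linarith)]
  have e2 : f1 x (v q) = -1 := by
    unfold f1
    rw [if_pos (by linarith)]
  have e3 : f1 x (v r) = -1 := by
    unfold f1
    rw [if_pos (by linarith)]
  have e4 : f1 x (v s) = -1 := by
    unfold f1
    rw [if_pos (by linarith)]
  have c1 := f2_couple h.par (y := v p + v q) (z := v r + v s) (by linarith) (by linarith)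
  have c2 := f2_couple h.par (y := v p + v r) (z := v q + v s) (by linarith) (by linarith)
  have c3 := f2_couple h.par (y := v q + v r) (z := v p + v s) (by linarith) (by linarith)
  rw [e1, e2, e3, e4]
  constructor <;> linarith [c1.1, c1.2, c2.1, c2.2, c3.1, c3.2]

/-- five boxes -/
theorem TyY.val5 (h : TyY v κ x a b w l T) (hc : T.card = 5) :
    ∑ S ∈ T.powerset, lamY v x w l S ≤ 0 ∧ -14 ≤ ∑ S ∈ T.powerset, lamY v x w l S := by
  obtain ⟨t, s, p, q, r, h1, h2, h3, h4, h5, h6, h7, h8, h9, h10, hT, m1, m2, m3, m4⟩ :=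
    five_max (v := v) hc
  have l1 := h.lo
  have l2 := h.up
  have b1 := h.box (j := t) (by rw [hT]; simp)
  have b2 := h.box (j := s) (by rw [hT]; simp)
  have b3 := h.box (j := p) (by rw [hT]; simp)
  have b4 := h.box (j := q) (by rw [hT]; simp)
  have b5 := h.box (j := r) (by rw [hT]; simp)
  have hs : sg v T = v t + v s + v p + v q + v r := by
    rw [hT]
    unfold sg
    rw [Finset.sum_insert (by simp [h1, h2, h3, h4]), Finset.sum_insert (by simp [h5, h6, h7]),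
      Finset.sum_insert (by simp [h8, h9]), Finset.sum_insert (by simp [h10]),
      Finset.sum_singleton]
    ring
  rw [hs] at l1 l2
  obtain ⟨g1, g2, g3, g4, g5, g6, g7, g8⟩ := h.par
  rw [hT, sumY5 _ _ _ _ h1 h2 h3 h4 h5 h6 h7 h8 h9 h10]
  have e : ∀ y : ℝ, y ≤ x / 2 → f1 x y = -1 := by
    intro y hy
    unfold f1
    rw [if_pos hy]
  rw [e _ (by linarith), e _ (by linarith), e _ (by linarith), e _ (by linarith),
    e _ (by linarith)]
  have c : ∀ y : ℝ, y ≤ x / 2 → f2 x w l y ≤ 1 ∧ -1 ≤ f2 x w l y ∧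
      (2 * x / 5 - 3 * l ≤ y → f2 x w l y = -1) := by
    intro y hy
    unfold f2
    rw [if_pos hy]
    refine ⟨?_, ?_, ?_⟩
    · split_ifs <;> norm_num
    · split_ifs <;> norm_num
    · intro hy'
      rw [if_neg (by linarith)]
  have c1 := c (v t + v s) (by linarith)
  have c2 := c (v t + v p) (by linarith)
  have c3 := c (v t + v q) (by linarith)
  have c4 := c (v t + v r) (by linarith)
  have c5 := c (v s + v p) (by linarith)
  have c6 := c (v s + v q) (by linarith)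
  have c7 := c (v s + v r) (by linarith)
  have c8 := c (v p + v q) (by linarith)
  have c9 := c (v p + v r) (by linarith)
  have c10 := c (v q + v r) (by linarith)
  have d1 : f2 x w l (v t + v r) = -1 := by
    apply c4.2.2
    by_contra hc
    push Not at hc
    linarith
  have d2 : f2 x w l (v t + v s) = -1 := by
    apply c1.2.2
    by_contra hc
    push Not at hc
    linarith
  have d3 : f2 x w l (v t + v q) + f2 x w l (v s + v r) ≤ 0 := by
    by_cases hc1 : 2 * x / 5 - 3 * l ≤ v t + v q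
    · rw [c3.2.2 hc1]
      linarith [c7.1]
    · by_cases hc2 : 2 * x / 5 - 3 * l ≤ v s + v r
      · rw [c7.2.2 hc2]
        linarith [c3.1]
      · exfalso
        push Not at hc1 hc2
        linarith
  constructor
  · linarith [c2.1, c5.1, c6.1, c8.1, c9.1, c10.1]
  · linarith [c1.2.1, c2.2.1, c3.2.1, c4.2.1, c5.2.1, c6.2.1, c7.2.1, c8.2.1, c9.2.1, c10.2.1]

/-- **the values of the minorant** -/
theorem valY : ValY := by
  intro v κ x a b w l T h A hA
  have hpar := h.par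
  obtain ⟨g1, g2, g3, g4, g5, g6, g7, g8⟩ := h.par
  refine ⟨⟨h.card_pos, h.card_le, fun j hj => h.box hj⟩, ?_, ?_, ?_, ?_, ?_, ?_⟩
  · intro hc
    obtain ⟨p, hp⟩ := Finset.card_eq_one.1 hc
    have l1 := h.lo
    rw [hp, sg_one] at l1
    rw [hA, hp, sumY1]
    unfold f1
    rw [if_neg (by linarith)]
    ring
  · intro hc
    have hc5 := h.card_le
    have hcases : T.card = 2 ∨ T.card = 3 ∨ T.card = 4 ∨ T.card = 5 := by omega
    rcases hcases with hc' | hc' | hc' | hc'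
    · obtain ⟨p, q, hpq, hT⟩ := Finset.card_eq_two.1 hc'
      obtain ⟨e, l1, l2⟩ := h.val2 hpq hT
      rw [hA, e]
      unfold f1
      split_ifs <;> linarith
    · obtain ⟨p, q, r, h1, h2, h3, hT, a1, a2⟩ := tri_max (v := v) hc'
      obtain ⟨l1, l2, b1, b2, b3, w1, w2⟩ := h.tri h1 h2 h3 hT a1 a2
      rw [hA, h.val3 h1 h2 h3 hT a1 a2]
      unfold f1 f2
      split_ifs <;> linarith
    · obtain ⟨p, q, r, s, h1, h2, h3, h4, h5, h6, hT⟩ := Finset.card_eq_four.1 hc'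
      rw [hA]
      exact (h.val4 h1 h2 h3 h4 h5 h6 hT).1
    · rw [hA]
      exact (h.val5 hc').1
  · intro p q hpq hT hv
    obtain ⟨e, l1, l2⟩ := h.val2 hpq hT
    rw [hA, e]
    unfold f1
    constructor
    · split_ifs <;> linarith
    · intro hp
      rw [if_pos (by linarith), if_neg (by linarith)]
      ring
  · intro p q r h1 h2 h3 hT a1 a2
    obtain ⟨l1, l2, b1, b2, b3, w1, w2⟩ := h.tri h1 h2 h3 hT a1 a2
    rw [hA, h.val3 h1 h2 h3 hT a1 a2]
    unfold f1 f2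
    refine ⟨?_, ?_, ?_, ?_, ?_⟩
    · split_ifs <;> linarith
    · intro hs
      rw [if_neg (by linarith), if_pos hs]
      ring
    · intro hs1 hs2
      rw [if_pos (by linarith), if_neg (by linarith), if_neg (by linarith), if_pos hs2]
      ring
    · intro hs
      rw [if_neg (by linarith)]
      split_ifs <;> linarith
    · intro hs
      rw [if_neg (show ¬ (v p + v q < 2 * x / 5 - 3 * l) by linarith),
        if_neg (show ¬ (v p + v q ≤ x / 2) by linarith)]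
      split_ifs <;> linarith
  · intro p q r s h1 h2 h3 h4 h5 h6 hT _ _ _
    rw [hA]
    exact (h.val4 h1 h2 h3 h4 h5 h6 hT).2
  · intro hc
    rw [hA]
    exact (h.val5 hc).2

end Pool.MP_e3f158_nt.TY
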