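import Pool.Agent.Lib.MP_e3f158_nt.TY.FamG
import Pool.Agent.Lib.MP_e3f158_nt.TY.Num
import Pool.Agent.Lib.MP_e3f158_nt.TY.Val
import Pool.Agent.Lib.MP_e3f158_nt.TL.GCov
import Pool.Agent.Lib.MP_e3f158_nt.TL.GFinal
import Pool.Agent.Lib.MP_dd84fd_nt.MX.Main

/-!
# MP_e3f158_nt, Theorem T with exponent `1/6`
-/

set_option autoImplicit false

namespace Pool.MP_e3f158_nt.TY

open Pool.MP_dd84fd_nt Pool.MP_dd84fd_nt.En Pool.MP_dd84fd_nt.E2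
open Pool.Agent.Lib.MP_e3f158_nt.TL (CovGL FinG covGL)

theorem AdmY.adm {th e τ : ℝ} (h : AdmY th e τ) : JX.Adm th e τ := by
  obtain ⟨h1, h2, h3, h4, h5⟩ := h
  exact ⟨by linarith, by linarith, h3, by linarith, h4⟩

theorem covY : CovGL (1 / 6) (1 / 10) :=
  covGL _ _ (famGL valY (1 / 10) (fun _ _ _ hA B' hB => numY valY hA B' hB)
    (fun _ _ _ h => h.adm))

theorem finGY : FinG (1 / 6) 40 := by
  obtain ⟨C, hC⟩ := MX.fin_m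
  refine ⟨C, fun θ ε h1 h2 hε K => ?_⟩
  obtain ⟨X0, hX0⟩ := hC θ ε (by linarith) (by linarith) hε K
  refine ⟨X0, fun X hX => ?_⟩
  obtain ⟨D, d1, d2, d3⟩ := hX0 X hX
  refine ⟨D, d1, d2, fun P hP hPn => d3 P hP fun n hn => ?_⟩
  obtain ⟨e1, e2, e3, e4⟩ := hPn n hn
  refine ⟨e1, e2, Or.inl ?_⟩
  linarith

end Pool.MP_e3f158_nt.TY
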