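import Pool.Agent.Lib.MP_e3f158_nt.TY.Fam
import Pool.Agent.Lib.MP_e3f158_nt.TY.Lf
import Pool.Agent.Lib.MP_dd84fd_nt.IY.NHc
import Pool.Agent.Lib.MP_dd84fd_nt.IY.NSg
import Pool.Agent.Lib.MP_dd84fd_nt.IY.CUs

/-!
# MP_e3f158_nt, Theorem T with exponent `1/6`, numerics: the facts at one `k` (helper2)
-/

set_option autoImplicit false

namespace Pool.MP_e3f158_nt.TY

open Finset Pool.MP_67663b_nt.Odd Pool.MP_dd84fd_nt.En Pool.MP_dd84fd_nt.E2 Pool.MP_dd84fd_nt.HX
  Pool.MP_dd84fd_nt.IY Pool.MP_dd84fd_nt.KX Pool.MP_dd84fd_nt.LX Pool.MP_dd84fd_nt.MX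

/-- the facts at one `k`; `v j` = logarithm of the left end point of box `j`, `f p` = box of `p`, `j0` =
box of `n / k`, `y = log (n/k)` -/
structure FY (v : ℕ → ℝ) (κ : ℝ) (f : ℕ → ℕ) (k j0 : ℕ) (x l N y : ℝ) : Prop where
  hl1 : 1 ≤ l
  hκ0 : 0 < κ
  hκ1 : κ ≤ 1 / 100
  hxl : 24000 * (l + 1) ≤ x
  hk0 : 0 < k
  hy : y = N - Real.log k
  hn1 : x - 5 * l ≤ N
  hn2 : N ≤ x
  hj0 : j0 ∉ k.primeFactors.image f
  hinj : Set.InjOn f (k.primeFactors : Set ℕ)
  hsq : Squarefree k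
  hmono : ∀ j ∈ k.primeFactors.image f, v j ≤ v j0
  hp1 : ∀ p ∈ k.primeFactors, v (f p) ≤ Real.log p
  hp2 : ∀ p ∈ k.primeFactors, Real.log p < v (f p) + κ
  hple : ∀ p ∈ k.primeFactors, Real.log p ≤ y

theorem fY (B' : ℕ) (hB : 1 ≤ B') : ∃ X0 : ℕ, ∀ X : ℕ, X0 ≤ X → 1 < X ∧ ∀ n k : ℕ,
    X5 X < n → n ≤ X → 1 ≤ k → Simp (kp B' X) (zt X) k → (zt X : ℝ) ≤ (n : ℝ) / k →
    (∀ j ∈ ty (kp B' X) (zt X) k, j < bx (kp B' X) (zt X) ((n : ℝ) / k)) →
    k ≤ X ∧ FY (vlog (kp B' X) (zt X)) (kp B' X) (fun p : ℕ => bx (kp B' X) (zt X) p) k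
      (bx (kp B' X) (zt X) ((n : ℝ) / k)) (Real.log X) (Real.log (Real.log X)) (Real.log n)
      (Real.log ((n : ℝ) / k)) := by
  obtain ⟨X1, hX1⟩ := nhc_big (1 / 300) (by norm_num) B' hB
  refine ⟨max X1 2, ?_⟩
  intro X hX
  simp only [max_le_iff] at hX
  obtain ⟨b1, b3⟩ := hX
  refine ⟨by omega, ?_⟩
  intro n k hn hnX hk hS hz hj
  obtain ⟨g1, g2, g3, g4, g5, g6, g7, g8, g9⟩ := hX1 X b1
  set x := Real.log (X : ℝ) with hxd
  set l := Real.log x with hld
  set κ := kp B' X with hκd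
  set z := zt X with hzd
  have hx0 : 0 < x := by linarith
  have hz1 : 1 ≤ z := by omega
  have hk0 : (0 : ℝ) < k := by exact_mod_cast (by omega : 0 < k)
  have hXR : (1 : ℝ) < X := by exact_mod_cast (by omega : 1 < X)
  have hX5 : 0 < X5 X := by
    unfold X5
    rw [← hxd]
    positivity
  have hn0 : (0 : ℝ) < n := hX5.trans hn
  have hkX : k ≤ X := by
    have h1 : (1 : ℝ) ≤ (n : ℝ) / k := by
      have : (1 : ℝ) ≤ z := by exact_mod_cast hz1
      linarith
    rw [le_div_iff₀ hk0, one_mul] at h1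
    have h2 : (k : ℝ) ≤ (X : ℝ) := h1.trans (by exact_mod_cast hnX)
    exact_mod_cast h2
  have hvp : ∀ p ∈ k.primeFactors, vlog κ z (bx κ z p) ≤ Real.log p ∧
      Real.log p < vlog κ z (bx κ z p) + κ := fun p hp => vlog_bx g7 hz1 (by
        exact_mod_cast hS.1.2 p hp)
  refine ⟨hkX, ⟨g3, g7, g8, by linarith, by omega, Real.log_div hn0.ne' hk0.ne', ?_, ?_,
    fun h => lt_irrefl _ (hj _ h), n_inj hS, hS.2.1, ?_, fun p hp => (hvp p hp).1,
    fun p hp => (hvp p hp).2, ?_⟩⟩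
  · have h3 : Real.log (X5 X) ≤ Real.log n := Real.log_le_log hX5 hn.le
    have h4 : Real.log (X5 X) = x - 5 * l := by
      unfold X5
      rw [Real.log_div (by linarith) (by rw [← hxd]; positivity), Real.log_pow, ← hxd]
      norm_num
      rfl
    linarith
  · exact Real.log_le_log hn0 (by exact_mod_cast hnX)
  · intro j hjm
    rw [vlog_eq κ z _ hz1, vlog_eq κ z _ hz1]
    have h10 : (j : ℝ) ≤ (bx κ z ((n : ℝ) / k) : ℕ) := by exact_mod_cast (hj j hjm).le
    have := mul_le_mul_of_nonneg_left h10 g7.le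
    linarith
  · intro p hp
    exact Real.log_le_log (by exact_mod_cast (Nat.prime_of_mem_primeFactors hp).pos)
      (n_le g7 hz1 hS hz hj hp)

/-! ### lists of primes -/

theorem log_prod (L : List ℕ) (hL : ∀ p ∈ L, p ≠ 0) :
    Real.log (L.prod : ℕ) = (L.map (fun p : ℕ => Real.log p)).sum := by
  induction L with
  | nil => simp
  | cons p L ih =>
    rw [List.prod_cons, List.map_cons, List.sum_cons, Nat.cast_mul,
      Real.log_mul (by exact_mod_cast hL p List.mem_cons_self), ih fun q hq => hL q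
        (List.mem_cons_of_mem _ hq)]
    have : L.prod ≠ 0 := by
      rw [Ne, List.prod_eq_zero_iff]
      exact fun h => hL 0 (List.mem_cons_of_mem _ h) rfl
    exact_mod_cast this

/-- the bounds for a cell -/
theorem cel_bd {G X p : ℕ} {x : ℝ} (hx : x = Real.log X) (hx0 : 0 < x) (hG : 0 < G) (hp : 1 ≤ p) :
    (cel (PG G) X p : ℝ) * (x / G) ≤ Real.log p ∧
      Real.log p < ((cel (PG G) X p : ℝ) + 1) * (x / G) := by
  have hG0 : (0 : ℝ) < G := by exact_mod_cast hG
  have hl : 0 ≤ Real.log p := Real.log_nonneg (by exact_mod_cast hp)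
  have h0 : 0 ≤ (G : ℝ) * (Real.log p / x) := by positivity
  have e : (G : ℝ) * (Real.log p / x) * (x / G) = Real.log p := by field_simp
  have hxG : 0 < x / G := by positivity
  unfold cel
  rw [← hx]
  have h1 := Nat.floor_le h0
  have h2 := Nat.lt_floor_add_one ((G : ℝ) * (Real.log p / x))
  constructor
  · calc _ ≤ (G : ℝ) * (Real.log p / x) * (x / G) := mul_le_mul_of_nonneg_right h1 hxG.le
      _ = _ := e
  · calc Real.log p = (G : ℝ) * (Real.log p / x) * (x / G) := e.symm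
      _ < _ := mul_lt_mul_of_pos_right h2 hxG

theorem cel_sum {G X : ℕ} {x : ℝ} (hx : x = Real.log X) (hx0 : 0 < x) (hG : 0 < G) (L : List ℕ)
    (hL : ∀ p ∈ L, 1 ≤ p) : ((L.map (cel (PG G) X)).sum : ℕ) * (x / G) ≤
      (L.map (fun p : ℕ => Real.log p)).sum ∧ (L.map (fun p : ℕ => Real.log p)).sum ≤
      (((L.map (cel (PG G) X)).sum : ℕ) + (L.length : ℝ)) * (x / G) := by
  induction L with
  | nil => simp
  | cons p L ih =>
    obtain ⟨h1, h2⟩ := ih fun q hq => hL q (List.mem_cons_of_mem _ hq)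
    obtain ⟨h3, h4⟩ := cel_bd hx hx0 hG (hL p List.mem_cons_self)
    rw [List.map_cons, List.map_cons, List.sum_cons, List.sum_cons, List.length_cons, Nat.cast_add,
      Nat.cast_add, Nat.cast_one]
    constructor
    · calc _ = (cel (PG G) X p : ℝ) * (x / G) + ((L.map (cel (PG G) X)).sum : ℕ) * (x / G) := by
            ring
        _ ≤ _ := add_le_add h3 h1
    · calc _ ≤ ((cel (PG G) X p : ℝ) + 1) * (x / G) +
            (((L.map (cel (PG G) X)).sum : ℕ) + (L.length : ℝ)) * (x / G) := add_le_add h4.le h2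
        _ = _ := by ring

/-- the quotient of the logarithms -/
theorem q_le {v : ℕ → ℝ} {κ : ℝ} {f : ℕ → ℕ} {k j0 : ℕ} {x l N y : ℝ}
    (F : FY v κ f k j0 x l N y) {G X : ℕ} (hx : x = Real.log X) (hG : 0 < G) (hG2 : G ≤ 1200)
    (c : List ℕ) (hc : c = (cL (PG G) X k).reverse) (hh : 1 ≤ c.headD 0) :
    0 ≤ N / y ∧ N / y * 10 ^ 9 ≤ qY G c.length (c.headD 0) c.sum ∧ c.sum + c.headD 0 ≤ G := by
  have hG0 : (0 : ℝ) < G := by exact_mod_cast hG
  have hne : c ≠ [] := by
    rintro rfl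
    simp at hh
  have hG3 : (G : ℝ) ≤ 1200 := by exact_mod_cast hG2
  have h1 := F.hl1
  have h2 := F.hxl
  have hx0 : 0 < x := by linarith
  have h3 := F.hn1
  have h4 := F.hn2
  have h5 := F.hy
  have hN : 0 < N := by linarith
  have hxG0 : 0 < x / G := by positivity
  have hxG : 20 * (l + 1) ≤ x / G := by
    rw [le_div_iff₀ hG0]
    nlinarith
  have hk0 : k ≠ 0 := F.hk0.ne'
  obtain ⟨L, hL⟩ : ∃ L, L = k.primeFactorsList := ⟨_, rfl⟩
  have hL1 : ∀ p ∈ L, 1 ≤ p := fun p hp => by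
    rw [hL] at hp
    exact (Nat.prime_of_mem_primeFactorsList hp).pos
  have hlk : Real.log k = (L.map (fun p : ℕ => Real.log p)).sum := by
    rw [← log_prod L fun p hp => by have := hL1 p hp; omega, hL, Nat.prod_primeFactorsList hk0]
  obtain ⟨s1, s2⟩ := cel_sum hx hx0 hG L hL1
  have hc' : c = (L.map (cel (PG G) X)).reverse := by
    rw [hc, hL]
    rfl
  have hsum : c.sum = (L.map (cel (PG G) X)).sum := by rw [hc', List.sum_reverse]
  have hlen : c.length = L.length := by rw [hc', List.length_reverse, List.length_map]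
  rw [← hsum, ← hlk] at s1 s2
  rw [← hlen] at s2
  -- the head
  have hhead : (c.headD 0 : ℝ) * (x / G) ≤ y := by
    obtain ⟨p, hp, he⟩ : ∃ p ∈ L, c.headD 0 = cel (PG G) X p := by
      obtain ⟨a, c', hac⟩ : ∃ a c', c = a :: c' := by
        cases c with
        | nil => exact absurd rfl hne
        | cons a c' => exact ⟨a, c', rfl⟩
      have : a ∈ c := by rw [hac]; exact List.mem_cons_self
      rw [hc', List.mem_reverse, List.mem_map] at this
      obtain ⟨p, hp, h⟩ := this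
      exact ⟨p, hp, by rw [hac]; exact h.symm⟩
    rw [he]
    have hp' : p ∈ k.primeFactors := by
      rw [hL] at hp
      exact Nat.mem_primeFactors_iff_mem_primeFactorsList.2 hp
    exact (cel_bd hx hx0 hG (hL1 p hp)).1.trans (F.hple p hp')
  have hy2 : ((G : ℝ) - c.sum - c.length) * (x / G) - 5 * l ≤ y := by
    have e : (G : ℝ) * (x / G) = x := by field_simp
    have : ((G : ℝ) - c.sum - c.length) * (x / G) = x - ((c.sum : ℝ) + c.length) * (x / G) := by
      rw [sub_mul, sub_mul, e]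
      ring
    rw [this]
    linarith
  have hy0 : 0 < y := by
    by_contra hcon
    push Not at hcon
    obtain ⟨p, hp⟩ : k.primeFactors.Nonempty := by
      rw [Nat.nonempty_primeFactors]
      by_contra hk1
      have : k = 1 := by omega
      apply hne
      rw [hc', hL, this]
      simp
    have g1 := F.hple p hp
    have g2 : 0 < Real.log p := Real.log_pos (by
      exact_mod_cast (Nat.prime_of_mem_primeFactors hp).one_lt)
    linarith
  have hm : ((max (c.headD 0) (G - c.sum - c.length - 1) : ℕ) : ℝ) * (x / G) ≤ y := by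
    rw [Nat.cast_max, max_mul_of_nonneg _ _ hxG0.le]
    refine max_le hhead ?_
    by_cases hcase : c.sum + c.length + 1 ≤ G
    · have e : ((G - c.sum - c.length - 1 : ℕ) : ℝ) = (G : ℝ) - c.sum - c.length - 1 := by
        rw [Nat.cast_sub (by omega), Nat.cast_sub (by omega), Nat.cast_sub (by omega)]
        push_cast
        ring
      rw [e]
      have : ((G : ℝ) - c.sum - c.length - 1) * (x / G) =
          ((G : ℝ) - c.sum - c.length) * (x / G) - x / G := by ring
      rw [this]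
      linarith
    · have : G - c.sum - c.length - 1 = 0 := by omega
      rw [this, Nat.cast_zero, zero_mul]
      exact hy0.le
  refine ⟨by positivity, ?_, ?_⟩
  · unfold qY
    obtain ⟨m, hmd⟩ : ∃ m, m = max (c.headD 0) (G - c.sum - c.length - 1) := ⟨_, rfl⟩
    rw [← hmd] at hm ⊢
    have hpos : 0 < m := by
      rw [hmd]
      exact lt_of_lt_of_le hh (le_max_left _ _)
    have hm0 : (0 : ℝ) < m := by exact_mod_cast hpos
    have h7 : N / y ≤ G / m := by
      rw [div_le_div_iff₀ hy0 hm0]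
      have : (m : ℝ) * x ≤ y * G := by
        have := mul_le_mul_of_nonneg_right hm hG0.le
        have e : (m : ℝ) * (x / G) * G = m * x := by field_simp
        linarith
      nlinarith
    have h8 : ((10 ^ 9 * G : ℕ) : ℝ) / m ≤ ((10 ^ 9 * G / m : ℕ) : ℝ) + 1 := by
      rw [← Nat.floor_div_eq_div (K := ℝ)]
      exact (Nat.lt_floor_add_one _).le
    have h9 : (G : ℝ) / m * 10 ^ 9 = ((10 ^ 9 * G : ℕ) : ℝ) / m := by
      push_cast
      ring
    calc N / y * 10 ^ 9 ≤ (G : ℝ) / m * 10 ^ 9 := mul_le_mul_of_nonneg_right h7 (by positivity)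
      _ = ((10 ^ 9 * G : ℕ) : ℝ) / m := h9
      _ ≤ ((10 ^ 9 * G / m : ℕ) : ℝ) + 1 := h8
      _ = _ := by rw [Nat.cast_add, Nat.cast_one]
  · have h10 : ((c.sum : ℝ) + (c.headD 0 : ℕ)) * (x / G) ≤ G * (x / G) := by
      have e : (G : ℝ) * (x / G) = x := by field_simp
      rw [e, add_mul]
      linarith
    have h11 := le_of_mul_le_mul_right h10 hxG0
    exact_mod_cast h11

end Pool.MP_e3f158_nt.TY
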