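import Pool.Agent.Lib.MP_e3f158_nt.TY.NumA

/-!
# MP_e3f158_nt, Theorem T with exponent `1/6`, numerics: the values on the cells (helper2)
-/

set_option autoImplicit false

namespace Pool.MP_e3f158_nt.TY

open Finset Pool.MP_67663b_nt.Odd Pool.MP_dd84fd_nt.En Pool.MP_dd84fd_nt.E2 Pool.MP_dd84fd_nt.HX
  Pool.MP_dd84fd_nt.IY Pool.MP_dd84fd_nt.KX Pool.MP_dd84fd_nt.LX Pool.MP_dd84fd_nt.MX

/-- two small boxes and a large one: the value on the cell -/
theorem v2_le {G t : ℕ} {x l w s A u : ℝ} (hl : 1 ≤ l) (hu : 20 * (l + 1) ≤ u) (hx : x = G * u)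
    (hw : 7 * x / 12 + 30 * l + 30 ≤ w) (h1 : t * u - 1 ≤ s) (h2 : s < (t + 2) * u)
    (a1 : -3 ≤ A) (a2 : s < 2 * x / 5 - 3 * l → A = 0) (a3 : x / 2 < s → s ≤ w → A = 0)
    (a4 : s < x / 2 - 6 * l → -2 ≤ A) (a5 : x / 2 < s → -2 ≤ A) : -A ≤ (v2Y G t : ℕ) := by
  have hu0 : 0 ≤ u := by linarith
  unfold v2Y
  split_ifs with c1 c2 c3 c4
  · have c : (5 : ℝ) * (t + 3) ≤ 2 * G := by exact_mod_cast c1
    have c' := mul_le_mul_of_nonneg_right c hu0
    rw [a2 (by nlinarith)]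
    simp
  · have c : (G : ℝ) + 2 ≤ 2 * t := by exact_mod_cast c2.1
    have d : (12 : ℝ) * (t + 3) ≤ 7 * G := by exact_mod_cast c2.2
    have c' := mul_le_mul_of_nonneg_right c hu0
    have d' := mul_le_mul_of_nonneg_right d hu0
    rw [a3 (by nlinarith) (by nlinarith)]
    simp
  · have c : (2 : ℝ) * (t + 3) ≤ G := by exact_mod_cast c3
    have c' := mul_le_mul_of_nonneg_right c hu0
    have := a4 (by nlinarith)
    push_cast
    linarith
  · have c : (G : ℝ) + 2 ≤ 2 * t := by exact_mod_cast c4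
    have c' := mul_le_mul_of_nonneg_right c hu0
    have := a5 (by nlinarith)
    push_cast
    linarith
  · push_cast
    linarith

/-- a pair of small boxes, four boxes -/
theorem v3_le {G t : ℕ} {x l s u : ℝ} (hl : 1 ≤ l) (hu : 20 * (l + 1) ≤ u) (hx : x = G * u)
    (h1 : t * u - 1 ≤ s) (h2 : s < (t + 2) * u) : hY x l s ≤ (v3Y G t : ℕ) := by
  have hu0 : 0 ≤ u := by linarith
  have hle3 : hY x l s ≤ 3 := by
    unfold hY
    split_ifs <;> norm_num
  have hle2 : ¬ |s - x / 2| ≤ 6 * l → hY x l s ≤ 2 := by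
    intro h
    unfold hY
    rw [if_neg h]
    split_ifs <;> norm_num
  have z1 : s < 2 * x / 5 - 3 * l → hY x l s = 0 := fun h => by
    unfold hY
    rw [if_pos h]
  have z2 : 5 * x / 12 < s → s < x / 2 - 6 * l → hY x l s = 0 := fun h h' => by
    unfold hY
    by_cases g1 : s < 2 * x / 5 - 3 * l
    · rw [if_pos g1]
    · rw [if_neg g1, if_pos ⟨h, h'⟩]
  have z3 : x / 2 < s → s < 7 * x / 12 → hY x l s = 0 := fun h h' => by
    unfold hY
    by_cases g1 : s < 2 * x / 5 - 3 * l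
    · rw [if_pos g1]
    · rw [if_neg g1]
      by_cases g2 : 5 * x / 12 < s ∧ s < x / 2 - 6 * l
      · rw [if_pos g2]
      · rw [if_neg g2, if_pos ⟨h, h'⟩]
  have z4 : 3 * x / 5 + 3 * l < s → hY x l s = 0 := fun h => by
    unfold hY
    by_cases g1 : s < 2 * x / 5 - 3 * l
    · rw [if_pos g1]
    · rw [if_neg g1]
      by_cases g2 : 5 * x / 12 < s ∧ s < x / 2 - 6 * l
      · rw [if_pos g2]
      · rw [if_neg g2]
        by_cases g3 : x / 2 < s ∧ s < 7 * x / 12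
        · rw [if_pos g3]
        · rw [if_neg g3, if_pos h]
  unfold v3Y
  split_ifs with c1 c2 c3 c4 c5 c6
  · have c : (5 : ℝ) * (t + 3) ≤ 2 * G := by exact_mod_cast c1
    have c' := mul_le_mul_of_nonneg_right c hu0
    rw [z1 (by nlinarith)]
    simp
  · have c : (5 : ℝ) * G + 12 ≤ 12 * t := by exact_mod_cast c2.1
    have d : (2 : ℝ) * (t + 3) ≤ G := by exact_mod_cast c2.2
    have c' := mul_le_mul_of_nonneg_right c hu0
    have d' := mul_le_mul_of_nonneg_right d hu0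
    rw [z2 (by nlinarith) (by nlinarith)]
    simp
  · have c : (G : ℝ) + 2 ≤ 2 * t := by exact_mod_cast c3.1
    have d : (12 : ℝ) * (t + 3) ≤ 7 * G := by exact_mod_cast c3.2
    have c' := mul_le_mul_of_nonneg_right c hu0
    have d' := mul_le_mul_of_nonneg_right d hu0
    rw [z3 (by nlinarith) (by nlinarith)]
    simp
  · have c : (3 : ℝ) * G + 5 ≤ 5 * t := by exact_mod_cast c4
    have c' := mul_le_mul_of_nonneg_right c hu0
    rw [z4 (by nlinarith)]
    simp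
  · have c : (2 : ℝ) * (t + 3) ≤ G := by exact_mod_cast c5
    have c' := mul_le_mul_of_nonneg_right c hu0
    have := hle2 (by
      intro h
      have := (abs_le.1 h).1
      nlinarith)
    push_cast
    linarith
  · have c : (G : ℝ) + 2 ≤ 2 * t := by exact_mod_cast c6
    have c' := mul_le_mul_of_nonneg_right c hu0
    have := hle2 (by
      intro h
      have := (abs_le.1 h).2
      nlinarith)
    push_cast
    linarith
  · push_cast
    linarith

/-- the value bound times the quotient -/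
theorem mul_q {A q : ℝ} {v Q : ℕ} (h1 : -A ≤ v) (h2 : 0 ≤ q) (h3 : q * 10 ^ 9 ≤ Q) :
    -A * q * 10 ^ 9 ≤ ((v * Q : ℕ) : ℝ) := by
  push_cast
  have h4 : -A * q ≤ v * q := mul_le_mul_of_nonneg_right h1 h2
  have h5 : (v : ℝ) * (q * 10 ^ 9) ≤ v * Q := mul_le_mul_of_nonneg_left h3 (Nat.cast_nonneg _)
  nlinarith

theorem pf_len {k : ℕ} (h : Squarefree k) : k.primeFactorsList.length = k.primeFactors.card := by
  have hnd : k.primeFactorsList.Nodup := (Nat.squarefree_iff_nodup_primeFactorsList h.ne_zero).1 h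
  rw [Nat.primeFactors, List.toFinset_card_of_nodup hnd]

theorem pf_fin {k : ℕ} : k.primeFactors = k.primeFactorsList.toFinset := rfl

section
variable {v : ℕ → ℝ} {κ : ℝ} {f : ℕ → ℕ} {k j0 : ℕ} {x l N y w : ℝ} {G X : ℕ} {T : Finset ℕ} {A : ℝ}

theorem FY.u (F : FY v κ f k j0 x l N y) (hG : 0 < G) (hG2 : G ≤ 1200) :
    20 * (l + 1) ≤ x / G ∧ x = G * (x / G) := by
  have hG0 : (0 : ℝ) < G := by exact_mod_cast hG
  have hG3 : (G : ℝ) ≤ 1200 := by exact_mod_cast hG2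
  have h1 := F.hl1
  have h2 := F.hxl
  refine ⟨?_, by field_simp⟩
  rw [le_div_iff₀ hG0]
  nlinarith

/-- a box of a prime -/
theorem FY.bd (F : FY v κ f k j0 x l N y) (hx : x = Real.log X) (hG : 0 < G) {p : ℕ}
    (hp : p ∈ k.primeFactors) : (cel (PG G) X p : ℝ) * (x / G) - 1 / 100 ≤ v (f p) ∧
      v (f p) < ((cel (PG G) X p : ℝ) + 1) * (x / G) := by
  have h1 := F.hl1
  have h2 := F.hxl
  have h3 := F.hp1 p hp
  have h4 := F.hp2 p hp
  have h5 := F.hκ1
  obtain ⟨g1, g2⟩ := cel_bd hx (by linarith) hG (Nat.prime_of_mem_primeFactors hp).pos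
  constructor <;> linarith

theorem FY.ne (F : FY v κ f k j0 x l N y) {p q : ℕ} (hp : p ∈ k.primeFactors)
    (hq : q ∈ k.primeFactors) (h : p ≠ q) : f p ≠ f q := fun e => h (F.hinj hp hq e)

theorem FY.ne0 (F : FY v κ f k j0 x l N y) {p : ℕ} (hp : p ∈ k.primeFactors) : f p ≠ j0 :=
  fun e => F.hj0 (by rw [← e]; exact Finset.mem_image_of_mem _ hp)

theorem FY.le0 (F : FY v κ f k j0 x l N y) {p : ℕ} (hp : p ∈ k.primeFactors) : v (f p) ≤ v j0 :=
  F.hmono _ (Finset.mem_image_of_mem _ hp)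

theorem leaf1 (F : FY v κ f k j0 x l N y) (hx : x = Real.log X) (hG : 0 < G) (hG2 : G ≤ 1200)
    (hT : T = insert j0 (k.primeFactors.image f)) (hc : k.primeFactors.card = 1)
    (hcell : ∀ p ∈ k.primeFactors, 1 ≤ cel (PG G) X p)
    (hV : ∀ p q : ℕ, p ≠ q → T = {p, q} → v p ≤ v q → -1 ≤ A ∧ (v p < x / 2 - 6 * l → A = 0)) :
    -A * (N / y) * 10 ^ 9 ≤ (lf1 G ((cL (PG G) X k).reverse.headD 0) (cL (PG G) X k).reverse.sum
      (cL (PG G) X k).reverse : ℕ) := by
  obtain ⟨hu, hxu⟩ := F.u hG hG2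
  have hl := F.hl1
  obtain ⟨p, hL⟩ := List.length_eq_one_iff.1 ((pf_len F.hsq).trans hc)
  have hpf : k.primeFactors = {p} := by rw [pf_fin, hL]; simp
  have mp : p ∈ k.primeFactors := by rw [hpf]; simp
  have e : (cL (PG G) X k).reverse = [cel (PG G) X p] := by
    unfold cL
    rw [hL]
    rfl
  obtain ⟨q1, q2, q3⟩ := q_le F hx hG hG2 _ rfl (by rw [e]; exact hcell p mp)
  rw [e] at q2 q3 ⊢
  rw [List.headD_cons, List.sum_singleton] at q2 q3 ⊢
  obtain ⟨d1, d2⟩ := F.bd hx hG mp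
  set c := cel (PG G) X p with hcd
  have hT2 : T = {f p, j0} := by
    rw [hT, hpf, Finset.image_singleton]
    exact Finset.pair_comm _ _
  obtain ⟨v1, v2⟩ := hV _ _ (F.ne0 mp) hT2 (F.le0 mp)
  show _ ≤ ((if G < c + c then 0 else if 2 * c + 4 ≤ G then 0 else qY G 1 c c : ℕ) : ℝ)
  rw [if_neg (by omega)]
  split_ifs with h
  · have c1 : (2 : ℝ) * c + 4 ≤ G := by exact_mod_cast h
    have c2 := mul_le_mul_of_nonneg_right c1 (show 0 ≤ x / G by linarith)
    rw [v2 (by nlinarith)]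
    simp
  · have h1 : -A ≤ ((1 : ℕ) : ℝ) := by push_cast; linarith
    have := mul_q h1 q1 q2
    rwa [one_mul] at this

theorem leaf2 (F : FY v κ f k j0 x l N y) (hx : x = Real.log X) (hG : 0 < G) (hG2 : G ≤ 1200)
    (hw : 7 * x / 12 + 30 * l + 30 ≤ w)
    (hT : T = insert j0 (k.primeFactors.image f)) (hc : k.primeFactors.card = 2)
    (hcell : ∀ p ∈ k.primeFactors, 1 ≤ cel (PG G) X p)
    (hV : ∀ p q r : ℕ, p ≠ q → p ≠ r → q ≠ r → T = {p, q, r} → v p ≤ v r → v q ≤ v r → -3 ≤ A ∧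
      (v p + v q < 2 * x / 5 - 3 * l → A = 0) ∧ (x / 2 < v p + v q → v p + v q ≤ w → A = 0) ∧
      (v p + v q < x / 2 - 6 * l → -2 ≤ A) ∧ (x / 2 < v p + v q → -2 ≤ A)) :
    -A * (N / y) * 10 ^ 9 ≤ (lf2 G ((cL (PG G) X k).reverse.headD 0) (cL (PG G) X k).reverse.sum
      (cL (PG G) X k).reverse : ℕ) := by
  obtain ⟨hu, hxu⟩ := F.u hG hG2
  have hl := F.hl1
  obtain ⟨p, q, hL⟩ := List.length_eq_two.1 ((pf_len F.hsq).trans hc)
  have hnd : k.primeFactorsList.Nodup := (Nat.squarefree_iff_nodup_primeFactorsList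
    F.hsq.ne_zero).1 F.hsq
  have hpq : p ≠ q := by
    rw [hL] at hnd
    simpa using hnd
  have hpf : k.primeFactors = {p, q} := by rw [pf_fin, hL]; simp
  have mp : p ∈ k.primeFactors := by rw [hpf]; simp
  have mq : q ∈ k.primeFactors := by rw [hpf]; simp
  have e : (cL (PG G) X k).reverse = [cel (PG G) X q, cel (PG G) X p] := by
    unfold cL
    rw [hL]
    rfl
  obtain ⟨q1, q2, q3⟩ := q_le F hx hG hG2 _ rfl (by rw [e]; exact hcell q mq)
  rw [e] at q2 q3 ⊢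
  rw [List.headD_cons] at q2 q3 ⊢
  obtain ⟨d1, d2⟩ := F.bd hx hG mp
  obtain ⟨d3, d4⟩ := F.bd hx hG mq
  set a := cel (PG G) X p with had
  set b := cel (PG G) X q with hbd
  obtain ⟨t, ht⟩ : ∃ t, t = [b, a].sum := ⟨_, rfl⟩
  have ht' : t = b + a := by rw [ht]; simp
  rw [← ht] at q2 q3 ⊢
  have hT2 : T = {f p, f q, j0} := by
    rw [hT, hpf, Finset.image_insert, Finset.image_singleton]
    ext z
    simp only [Finset.mem_insert, Finset.mem_singleton]
    tauto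
  obtain ⟨v1, v2, v3, v4, v5⟩ := hV _ _ _ (F.ne mp mq hpq) (F.ne0 mp) (F.ne0 mq) hT2 (F.le0 mp)
    (F.le0 mq)
  show _ ≤ ((if G < t + b then 0 else v2Y G t * qY G 2 b t : ℕ) : ℝ)
  rw [if_neg (by omega)]
  have htr : (t : ℝ) = b + a := by exact_mod_cast ht'
  have h1 := v2_le (t := t) hl hu hxu hw (by rw [htr]; nlinarith) (by rw [htr]; nlinarith)
    v1 v2 v3 v4 v5
  exact mul_q h1 q1 q2

theorem leaf3 (F : FY v κ f k j0 x l N y) (hx : x = Real.log X) (hG : 0 < G) (hG2 : G ≤ 1200)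
    (hT : T = insert j0 (k.primeFactors.image f)) (hc : k.primeFactors.card = 3)
    (hcell : ∀ p ∈ k.primeFactors, 1 ≤ cel (PG G) X p)
    (hV : ∀ p q r s : ℕ, p ≠ q → p ≠ r → p ≠ s → q ≠ r → q ≠ s → r ≠ s → T = {p, q, r, s} →
      v p ≤ v s → v q ≤ v s → v r ≤ v s →
      -(hY x l (v p + v q) + hY x l (v p + v r) + hY x l (v q + v r)) ≤ A) :
    -A * (N / y) * 10 ^ 9 ≤ (lf3 G ((cL (PG G) X k).reverse.headD 0) (cL (PG G) X k).reverse.sum
      (cL (PG G) X k).reverse : ℕ) := by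
  obtain ⟨hu, hxu⟩ := F.u hG hG2
  have hl := F.hl1
  obtain ⟨p, q, r, hL⟩ := List.length_eq_three.1 ((pf_len F.hsq).trans hc)
  have hnd : k.primeFactorsList.Nodup := (Nat.squarefree_iff_nodup_primeFactorsList
    F.hsq.ne_zero).1 F.hsq
  rw [hL] at hnd
  simp only [List.nodup_cons, List.mem_cons, List.not_mem_nil, or_false, not_or,
    List.nodup_nil, and_true, not_false_eq_true] at hnd
  obtain ⟨⟨hpq, hpr⟩, hqr⟩ := hnd
  have hpf : k.primeFactors = {p, q, r} := by rw [pf_fin, hL]; simp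
  have mp : p ∈ k.primeFactors := by rw [hpf]; simp
  have mq : q ∈ k.primeFactors := by rw [hpf]; simp
  have mr : r ∈ k.primeFactors := by rw [hpf]; simp
  have e : (cL (PG G) X k).reverse = [cel (PG G) X r, cel (PG G) X q, cel (PG G) X p] := by
    unfold cL
    rw [hL]
    rfl
  obtain ⟨q1, q2, q3⟩ := q_le F hx hG hG2 _ rfl (by rw [e]; exact hcell r mr)
  rw [e] at q2 q3 ⊢
  rw [List.headD_cons] at q2 q3 ⊢
  obtain ⟨d1, d2⟩ := F.bd hx hG mp
  obtain ⟨d3, d4⟩ := F.bd hx hG mq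
  obtain ⟨d5, d6⟩ := F.bd hx hG mr
  set a := cel (PG G) X p with had
  set b := cel (PG G) X q with hbd
  set c := cel (PG G) X r with hcd
  obtain ⟨t, ht⟩ : ∃ t, t = [c, b, a].sum := ⟨_, rfl⟩
  rw [← ht] at q2 q3 ⊢
  have hT2 : T = {f p, f q, f r, j0} := by
    rw [hT, hpf, Finset.image_insert, Finset.image_insert, Finset.image_singleton]
    ext z
    simp only [Finset.mem_insert, Finset.mem_singleton]
    tauto
  have hv := hV _ _ _ _ (F.ne mp mq hpq) (F.ne mp mr hpr) (F.ne0 mp) (F.ne mq mr hqr) (F.ne0 mq)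
    (F.ne0 mr) hT2 (F.le0 mp) (F.le0 mq) (F.le0 mr)
  show _ ≤ ((if G < t + c then 0 else (v3Y G (a + b) + v3Y G (a + c) + v3Y G (b + c)) *
    qY G 3 c t : ℕ) : ℝ)
  rw [if_neg (by omega)]
  have k1 := v3_le (G := G) (t := a + b) (s := v (f p) + v (f q)) hl hu hxu
    (by push_cast; nlinarith) (by push_cast; nlinarith)
  have k2 := v3_le (G := G) (t := a + c) (s := v (f p) + v (f r)) hl hu hxu
    (by push_cast; nlinarith) (by push_cast; nlinarith)
  have k3 := v3_le (G := G) (t := b + c) (s := v (f q) + v (f r)) hl hu hxu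
    (by push_cast; nlinarith) (by push_cast; nlinarith)
  refine mul_q ?_ q1 q2
  push_cast
  linarith

theorem leaf4 (F : FY v κ f k j0 x l N y) (hx : x = Real.log X) (hG : 0 < G) (hG2 : G ≤ 1200)
    (hc : k.primeFactors.card = 4)
    (hcell : ∀ p ∈ k.primeFactors, 1 ≤ cel (PG G) X p) (hV : -14 ≤ A) :
    -A * (N / y) * 10 ^ 9 ≤ (lf4 G ((cL (PG G) X k).reverse.headD 0) (cL (PG G) X k).reverse.sum
      (cL (PG G) X k).reverse : ℕ) := by
  obtain ⟨L, hL⟩ : ∃ L, L = k.primeFactorsList := ⟨_, rfl⟩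
  have hlen := (pf_len F.hsq).trans hc
  rw [← hL] at hlen
  obtain ⟨p, q, r, s, rfl⟩ : ∃ p q r s, L = [p, q, r, s] := by
    match L, hlen with
    | [p, q, r, s], _ => exact ⟨p, q, r, s, rfl⟩
  have ms : s ∈ k.primeFactors := by rw [pf_fin, ← hL]; simp
  have e : (cL (PG G) X k).reverse = [cel (PG G) X s, cel (PG G) X r, cel (PG G) X q,
      cel (PG G) X p] := by
    unfold cL
    rw [← hL]
    rfl
  obtain ⟨q1, q2, q3⟩ := q_le F hx hG hG2 _ rfl (by rw [e]; exact hcell s ms)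
  rw [e] at q2 q3 ⊢
  rw [List.headD_cons] at q2 q3 ⊢
  obtain ⟨t, ht⟩ : ∃ t, t = [cel (PG G) X s, cel (PG G) X r, cel (PG G) X q,
      cel (PG G) X p].sum := ⟨_, rfl⟩
  rw [← ht] at q2 q3 ⊢
  show _ ≤ ((if G < t + cel (PG G) X s then 0 else 14 * qY G 4 (cel (PG G) X s) t : ℕ) : ℝ)
  rw [if_neg (by omega)]
  refine mul_q ?_ q1 q2
  push_cast
  linarith

end

/-! ### the leaf functions vanish outside the simplex -/

theorem hz1 (G : ℕ) (l : List ℕ) (h : G < l.sum + l.headD 0) : lf1 G (l.headD 0) l.sum l = 0 := by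
  match l with
  | [c] =>
    show (if G < [c].sum + c then 0 else _) = 0
    exact if_pos h
  | [] => rfl
  | _ :: _ :: _ => rfl

theorem hz2 (G : ℕ) (l : List ℕ) (h : G < l.sum + l.headD 0) : lf2 G (l.headD 0) l.sum l = 0 := by
  match l with
  | [b, a] =>
    show (if G < [b, a].sum + b then 0 else _) = 0
    exact if_pos h
  | [] => rfl
  | [_] => rfl
  | _ :: _ :: _ :: _ => rfl

theorem hz3 (G : ℕ) (l : List ℕ) (h : G < l.sum + l.headD 0) : lf3 G (l.headD 0) l.sum l = 0 := by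
  match l with
  | [c, b, a] =>
    show (if G < [c, b, a].sum + c then 0 else _) = 0
    exact if_pos h
  | [] => rfl
  | [_] => rfl
  | [_, _] => rfl
  | _ :: _ :: _ :: _ :: _ => rfl

theorem hz4 (G : ℕ) (l : List ℕ) (h : G < l.sum + l.headD 0) : lf4 G (l.headD 0) l.sum l = 0 := by
  match l with
  | [d, c, b, a] =>
    show (if G < [d, c, b, a].sum + d then 0 else _) = 0
    exact if_pos h
  | [] => rfl
  | [_] => rfl
  | [_, _] => rfl
  | [_, _, _] => rfl
  | _ :: _ :: _ :: _ :: _ :: _ => rfl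

end Pool.MP_e3f158_nt.TY
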